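import Pool.Graph.R_pool_sql_team_seeded_5cf16337.K3h46.TMC.Final

set_option autoImplicit false
set_option linter.unusedSectionVars false

/-!
Orthogonal decompositions, and averaging over radii.
-/

open MeasureTheory Set Filter Topology ENNReal NNReal Metric

namespace Pool.Agent.Helper37.Kp

open Pool.Agent.H742R2.Kk

section dec

variable {X Y Z : Type} [NormedAddCommGroup X] [InnerProductSpace ℝ X] [MeasurableSpace X]
  [BorelSpace X] [FiniteDimensional ℝ X]
  [NormedAddCommGroup Y] [InnerProductSpace ℝ Y] [MeasurableSpace Y]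
  [BorelSpace Y] [FiniteDimensional ℝ Y]
  [NormedAddCommGroup Z] [InnerProductSpace ℝ Z] [MeasurableSpace Z]
  [BorelSpace Z] [FiniteDimensional ℝ Z]

theorem lintegral_dec (T : WithLp 2 (X × Y) ≃ₗᵢ[ℝ] Z) {H : Z → ℝ≥0∞} (hH : Measurable H) :
    ∫⁻ z, H z = ∫⁻ y : Y, ∫⁻ x : X, H (T (WithLp.toLp 2 (x, y))) := by
  have h1 : MeasurePreserving (fun p : X × Y => T (WithLp.toLp 2 p)) volume volume :=
    T.measurePreserving.comp (WithLp.volume_preserving_toLp X Y)
  rw [← h1.lintegral_comp hH]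
  exact lintegral_prod_symm _ (hH.comp h1.measurable).aemeasurable

end dec

/-- Averaging over the radii. -/
theorem radial_le {m : ℕ} {θ : ℝ} (hθ : 0 < θ) {H : E (m + 1) → ℝ≥0∞} (hH : Measurable H) :
    ∫⁻ w in {w : E (m + 1) | 2 * θ ≤ ‖w‖ ∧ ‖w‖ ≤ 4 * θ}, H w ≤
      ENNReal.ofReal (2 ^ (m + 1) * θ ^ m) *
        ∫⁻ y in {y : E (m + 1) | 1 ≤ ‖y‖ ∧ ‖y‖ ≤ 4}, ∫⁻ r in Icc θ (2 * θ), H (r • y) := by
  set A : Set (E (m + 1)) := {y | 1 ≤ ‖y‖ ∧ ‖y‖ ≤ 4} with hA
  set B : Set (E (m + 1)) := {w | 2 * θ ≤ ‖w‖ ∧ ‖w‖ ≤ 4 * θ} with hB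
  have hAm : MeasurableSet A :=
    (measurableSet_le measurable_const measurable_norm).inter
      (measurableSet_le measurable_norm measurable_const)
  have hBm : MeasurableSet B :=
    (measurableSet_le measurable_const measurable_norm).inter
      (measurableSet_le measurable_norm measurable_const)
  have hswap : ∫⁻ y in A, ∫⁻ r in Icc θ (2 * θ), H (r • y)
      = ∫⁻ r in Icc θ (2 * θ), ∫⁻ y in A, H (r • y) := by
    apply lintegral_lintegral_swap
    have h1 : Measurable (fun p : E (m + 1) × ℝ => H (p.2 • p.1)) :=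
      hH.comp (measurable_snd.smul measurable_fst)
    exact h1.aemeasurable
  rw [hswap]
  have hr : ∀ r ∈ Icc θ (2 * θ), ENNReal.ofReal ((2 * θ) ^ (m + 1))⁻¹ * ∫⁻ w in B, H w
      ≤ ∫⁻ y in A, H (r • y) := by
    intro r hr
    have hr0 : 0 < r := hθ.trans_le hr.1
    have h1 : ∫⁻ y in A, H (r • y) = ENNReal.ofReal ((r ^ (m + 1))⁻¹) *
        ∫⁻ w, (A.indicator (fun y => H (r • y))) (r⁻¹ • w) := by
      rw [← lintegral_indicator hAm]
      have h2 := Measure.map_addHaar_smul (volume : Measure (E (m + 1))) (inv_ne_zero hr0.ne')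
      rw [finrank_euclideanSpace_fin] at h2
      have h3 : ∫⁻ w, (A.indicator (fun y => H (r • y))) (r⁻¹ • w)
          = ∫⁻ y, (A.indicator (fun y => H (r • y))) y
            ∂(Measure.map (fun w : E (m + 1) => r⁻¹ • w) volume) := by
        rw [lintegral_map]
        · exact (hH.comp (measurable_const_smul r)).indicator hAm
        · exact measurable_const_smul _
      rw [h3, h2, lintegral_smul_measure, smul_eq_mul, ← mul_assoc,
        ← ENNReal.ofReal_mul (by positivity)]
      have e1 : (r ^ (m + 1))⁻¹ * |((r⁻¹) ^ (m + 1))⁻¹| = 1 := by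
        rw [abs_of_pos (by positivity), inv_pow, inv_inv]
        field_simp
      rw [e1, ENNReal.ofReal_one, one_mul]
    rw [h1]
    apply mul_le_mul'
    · apply ENNReal.ofReal_le_ofReal
      apply inv_anti₀ (by positivity)
      apply pow_le_pow_left₀ hr0.le hr.2
    · rw [← lintegral_indicator hBm]
      apply lintegral_mono
      intro w
      by_cases hw : w ∈ B
      · have hw' : r⁻¹ • w ∈ A := by
          have h4 : ‖r⁻¹ • w‖ = ‖w‖ / r := by
            rw [norm_smul, norm_inv, Real.norm_of_nonneg hr0.le, inv_mul_eq_div]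
          refine ⟨?_, ?_⟩
          · rw [h4, le_div_iff₀ hr0]
            linarith [hw.1, hr.2]
          · rw [h4, div_le_iff₀ hr0]
            linarith [hw.2, hr.1]
        simp only
        rw [indicator_of_mem hw, indicator_of_mem hw', smul_smul, mul_inv_cancel₀ hr0.ne',
          one_smul]
      · rw [indicator_of_notMem hw]
        exact zero_le
  have h2 : ENNReal.ofReal θ * (ENNReal.ofReal ((2 * θ) ^ (m + 1))⁻¹ * ∫⁻ w in B, H w)
      ≤ ∫⁻ r in Icc θ (2 * θ), ∫⁻ y in A, H (r • y) := by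
    calc ENNReal.ofReal θ * (ENNReal.ofReal ((2 * θ) ^ (m + 1))⁻¹ * ∫⁻ w in B, H w)
        = ∫⁻ r in Icc θ (2 * θ), (ENNReal.ofReal ((2 * θ) ^ (m + 1))⁻¹ * ∫⁻ w in B, H w) := by
          rw [setLIntegral_const, Real.volume_Icc, mul_comm]
          congr 2
          ring
      _ ≤ _ := setLIntegral_mono' measurableSet_Icc hr
  calc ∫⁻ w in B, H w = ENNReal.ofReal (2 ^ (m + 1) * θ ^ m) *
        (ENNReal.ofReal θ * (ENNReal.ofReal ((2 * θ) ^ (m + 1))⁻¹ * ∫⁻ w in B, H w)) := by
        rw [← mul_assoc, ← mul_assoc, ← ENNReal.ofReal_mul (by positivity),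
          ← ENNReal.ofReal_mul (by positivity)]
        have e1 : 2 ^ (m + 1) * θ ^ m * θ * ((2 * θ) ^ (m + 1))⁻¹ = 1 := by
          rw [mul_pow, pow_succ θ m]
          field_simp
        rw [e1, ENNReal.ofReal_one, one_mul]
    _ ≤ _ := by gcongr

end Pool.Agent.Helper37.Kp
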