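import Pool.Graph.R_pool_sql_team_seeded_5cf16337.K3h46.TMC.Final

set_option autoImplicit false
set_option linter.unusedSectionVars false

/-!
Summation over the scales, for tubes around given points, from an estimate at every scale.
-/

open MeasureTheory Set Filter Topology ENNReal NNReal Metric

namespace Pool.Agent.Helper37.Kp

open Pool.Agent.H742R2.Kk
open Pool.Agent.W767.Kc
open Pool.Agent.K3h46.TMC

/-- From the estimates at the scales `l` to the whole tubes. -/
theorem sum_shells (d : ℕ) (hd : 1 ≤ d) {q b Cs K R : ℝ} (hq1 : 1 < q)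
    (hσ1 : 1 < (d:ℝ) * (q - b)) (hCs : 0 < Cs) (hK : 0 < K) (hR : 0 < R) : ∃ C : ℝ, 0 < C ∧
    ∀ (δ : ℝ), 0 < δ → δ ≤ 1 →
    ∀ (ι : Type) [Fintype ι] [Nonempty ι] (e p : ι → E (d + 1)), (∀ i, ‖e i‖ = 1) →
    (∀ i j, i ≠ j → δ ≤ ‖e i - e j‖) →
    (∀ l : ℝ, K * δ ≤ l → ∫⁻ y, Fs (K * δ) (shell l) e p y ^ q ≤
      ENNReal.ofReal (Cs * (((δ + K * δ / l) / δ) ^ (d * (q - b))
        * (Fintype.card ι : ℝ) ^ b) * (l * (K * δ) ^ d))) →
    ∫⁻ y, Fs (K * δ) (Icc (-R) R) e p y ^ q ≤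
      ENNReal.ofReal (C * (δ ^ d * (Fintype.card ι : ℝ) ^ (q - 1 / d))) := by
  have hd0 : (0:ℝ) < d := by exact_mod_cast hd
  have hdi : 0 < 1 / (d:ℝ) := by positivity
  have hq0 : 0 < q := by linarith
  set σ : ℝ := d * (q - b) with hσ
  obtain ⟨C1, hC1, hpack⟩ := cap_packing d
  set C2 : ℝ := C1 * 3 ^ d with hC2
  have hC20 : 0 < C2 := by positivity
  set A : ℝ := K * C2 ^ (1 / (d:ℝ)) with hA
  have hA0 : 0 < A := by positivity
  set c0 : ℝ := 2 * A * (2 * K) ^ d with hc0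
  set c1 : ℝ := Cs * (R + K) ^ σ * A ^ (1 - σ) * K ^ d with hc1
  set lam : ℝ := 2 ^ ((1 - σ) / q) with hlam
  have hlam0 : 0 < lam := by positivity
  have hlam1 : lam < 1 := by
    apply Real.rpow_lt_one_of_one_lt_of_neg (by norm_num)
    apply div_neg_of_neg_of_pos (by linarith) hq0
  have hc00 : 0 < c0 := by positivity
  have hc10 : 0 < c1 := by positivity
  have hl1 : 0 < 1 - lam := by linarith
  refine ⟨(c0 ^ (1 / q) + c1 ^ (1 / q) * (1 - lam)⁻¹) ^ q, by positivity, ?_⟩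
  intro δ hδ hδ1 ι _ _ e p he hsep hscale
  classical
  have hM0 : 0 < (Fintype.card ι : ℝ) := by exact_mod_cast Fintype.card_pos
  set M : ℝ := (Fintype.card ι : ℝ) with hM
  set X : ℝ := δ ^ d * M ^ (q - 1 / d) with hX
  have hX0 : 0 < X := by positivity
  -- the cardinality
  have hMle : δ ^ d * M ≤ C2 := by
    obtain ⟨i0⟩ := ‹Nonempty ι›
    have h1 := hpack δ 2 hδ hδ1 (by norm_num) ι Finset.univ e (e i0) (he i0) (fun i _ => he i)
      (fun i _ j _ hij => hsep i j hij) (fun i _ => by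
        refine (norm_sub_le _ _).trans ?_
        rw [he i, he i0]; norm_num)
    rw [Finset.card_univ] at h1
    have h2 : ((δ + 2) / δ) ^ d ≤ 3 ^ d * (δ ^ d)⁻¹ := by
      rw [div_pow, div_eq_mul_inv]
      gcongr
      linarith
    calc δ ^ d * M ≤ δ ^ d * (C1 * (3 ^ d * (δ ^ d)⁻¹)) := by
          gcongr
          exact h1.trans (by gcongr)
      _ = C2 := by
          rw [hC2]; field_simp
  set r : ℝ := A * M ^ (-(1 / (d:ℝ))) with hr
  have hr0 : 0 < r := by positivity
  have hρr : K * δ ≤ r := by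
    have h1 : (δ ^ d * M) ^ (1 / (d:ℝ)) ≤ C2 ^ (1 / (d:ℝ)) :=
      Real.rpow_le_rpow (by positivity) hMle (by positivity)
    have h2 : (δ ^ d * M) ^ (1 / (d:ℝ)) = δ * M ^ (1 / (d:ℝ)) := by
      rw [Real.mul_rpow (by positivity) (by positivity), ← Real.rpow_natCast,
        ← Real.rpow_mul hδ.le]
      congr 1
      rw [mul_one_div_cancel hd0.ne', Real.rpow_one]
    rw [h2] at h1
    have h3 : M ^ (1 / (d:ℝ)) * M ^ (-(1 / (d:ℝ))) = 1 := by
      rw [← Real.rpow_add hM0, add_neg_cancel, Real.rpow_zero]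
    calc K * δ = K * (δ * M ^ (1 / (d:ℝ))) * M ^ (-(1 / (d:ℝ))) := by
          rw [mul_assoc, mul_assoc δ, h3, mul_one]
      _ ≤ K * C2 ^ (1 / (d:ℝ)) * M ^ (-(1 / (d:ℝ))) := by gcongr
      _ = r := by rw [hr, hA]
  have hρ : 0 < K * δ := by positivity
  obtain ⟨J, hJ⟩ : ∃ J : ℕ, R < 2 ^ J * r := by
    obtain ⟨J, hJ⟩ := pow_unbounded_of_one_lt (R / r) (by norm_num : (1:ℝ) < 2)
    refine ⟨J, ?_⟩
    rwa [div_lt_iff₀ hr0] at hJ
  set S : Finset ℕ := (Finset.range J).filter (fun j => (2:ℝ) ^ j * r ≤ R) with hS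
  set F0 : E (d + 1) → ℝ≥0∞ := Fs (K * δ) (Icc (-r) r) e p with hF0
  set Fj : ℕ → E (d + 1) → ℝ≥0∞ := fun j => Fs (K * δ) (shell (2 ^ j * r)) e p with hFj
  have hF0m : Measurable F0 := measurable_Fs _ measurableSet_Icc _ _
  have hFjm : ∀ j, Measurable (Fj j) := fun j => measurable_Fs _ (measurableSet_shell _) _ _
  -- the core
  have hcore : ∫⁻ y, F0 y ^ q ≤ ENNReal.ofReal (c0 * X) := by
    have h1 := lintegral_Fs_le (p := p) hρ hr0 measurableSet_Icc (le_refl (Icc (-r) r)) he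
    have h2 : ∀ y, F0 y ^ q ≤ ENNReal.ofReal (M ^ (q - 1)) * F0 y := by
      intro y
      have h3 : F0 y ≤ ENNReal.ofReal M := by
        have := Fs_le (K * δ) (Icc (-r) r) e p y
        rw [hM, ENNReal.ofReal_natCast]
        exact this
      have e1 : q = (q - 1) + 1 := by ring
      conv_lhs => rw [e1]
      rw [ENNReal.rpow_add_of_nonneg _ _ (by linarith) (by norm_num), ENNReal.rpow_one,
        ← ENNReal.ofReal_rpow_of_nonneg hM0.le (by linarith)]
      gcongr
    calc ∫⁻ y, F0 y ^ q ≤ ∫⁻ y, ENNReal.ofReal (M ^ (q - 1)) * F0 y := lintegral_mono h2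
      _ = ENNReal.ofReal (M ^ (q - 1)) * ∫⁻ y, F0 y :=
          lintegral_const_mul' _ _ ENNReal.ofReal_ne_top
      _ ≤ ENNReal.ofReal (M ^ (q - 1)) * ENNReal.ofReal (M * (2 * r * (2 * (K * δ)) ^ d)) := by
          gcongr
      _ = ENNReal.ofReal (c0 * X) := by
          rw [← ENNReal.ofReal_mul (by positivity)]
          congr 1
          have e1 : M ^ (q - 1 / d) = M ^ (q - 1) * M * M ^ (-(1 / (d:ℝ))) := by
            have h4 : M ^ (q - 1) * M = M ^ (q - 1 + 1) := by
              rw [Real.rpow_add hM0, Real.rpow_one]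
            rw [h4, ← Real.rpow_add hM0]
            congr 1
            ring
          rw [hX, hc0, e1, hr, mul_pow 2 (K * δ), mul_pow K, mul_pow 2 K]
          ring
  -- the shells
  have hshell : ∀ j ∈ S, ∫⁻ y, Fj j y ^ q ≤ ENNReal.ofReal (c1 * X * (lam ^ j) ^ q) := by
    intro j hj
    have hjR := (Finset.mem_filter.1 hj).2
    set l : ℝ := 2 ^ j * r with hl
    have h2j : (1:ℝ) ≤ 2 ^ j := one_le_pow₀ (by norm_num)
    have hrl : r ≤ l := by rw [hl]; nlinarith
    have hl0 : 0 < l := by positivity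
    have h1 := hscale l (hρr.trans hrl)
    refine h1.trans ?_
    apply ENNReal.ofReal_le_ofReal
    have hB : (δ + K * δ / l) / δ ≤ (R + K) / l := by
      have e1 : (δ + K * δ / l) / δ = (l + K) / l := by field_simp
      rw [e1]
      gcongr
    have e0 : Cs * (((δ + K * δ / l) / δ) ^ σ * M ^ b) * (l * (K * δ) ^ d)
        ≤ Cs * (((R + K) / l) ^ σ * M ^ b) * (l * (K * δ) ^ d) := by
      gcongr
    refine e0.trans (le_of_eq ?_)
    have e1 : ((R + K) / l) ^ σ * l = (R + K) ^ σ * l ^ (1 - σ) := by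
      rw [Real.div_rpow (by positivity) hl0.le, Real.rpow_sub hl0, Real.rpow_one]
      ring
    have e2 : l ^ (1 - σ) = (lam ^ j) ^ q * (A ^ (1 - σ) * M ^ (-(1 / (d:ℝ)) * (1 - σ))) := by
      rw [hl, Real.mul_rpow (by positivity) hr0.le, hr, Real.mul_rpow hA0.le (by positivity),
        ← Real.rpow_mul hM0.le]
      congr 1
      rw [hlam, ← Real.rpow_natCast, ← Real.rpow_natCast, ← Real.rpow_mul (by positivity),
        ← Real.rpow_mul (by positivity), ← Real.rpow_mul (by positivity)]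
      congr 1
      field_simp
    have e3 : M ^ (q - 1 / d) = M ^ b * M ^ (-(1 / (d:ℝ)) * (1 - σ)) := by
      rw [← Real.rpow_add hM0]
      congr 1
      rw [hσ]
      field_simp
      ring
    calc Cs * (((R + K) / l) ^ σ * M ^ b) * (l * (K * δ) ^ d)
        = Cs * M ^ b * (K * δ) ^ d * (((R + K) / l) ^ σ * l) := by ring
      _ = _ := by
          rw [e1, e2, hc1, hX, e3, mul_pow]
          ring
  -- assembly
  have hsum : (∫⁻ y, Fs (K * δ) (Icc (-R) R) e p y ^ q) ^ (1 / q)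
      ≤ ENNReal.ofReal ((c0 ^ (1 / q) + c1 ^ (1 / q) * (1 - lam)⁻¹) * X ^ (1 / q)) := by
    have hq1' : 0 ≤ 1 / q := by positivity
    calc (∫⁻ y, Fs (K * δ) (Icc (-R) R) e p y ^ q) ^ (1 / q)
        ≤ (∫⁻ y, (F0 y + ∑ j ∈ S, Fj j y) ^ q) ^ (1 / q) := by
          apply ENNReal.rpow_le_rpow _ hq1'
          apply lintegral_mono
          intro y
          exact ENNReal.rpow_le_rpow (pointwise hr0 hJ e p y) hq0.le
      _ ≤ (∫⁻ y, F0 y ^ q) ^ (1 / q) + (∫⁻ y, (∑ j ∈ S, Fj j y) ^ q) ^ (1 / q) :=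
          ENNReal.lintegral_Lp_add_le hF0m.aemeasurable
            (Finset.measurable_fun_sum S (fun j _ => hFjm j)).aemeasurable hq1.le
      _ ≤ (∫⁻ y, F0 y ^ q) ^ (1 / q) + ∑ j ∈ S, (∫⁻ y, Fj j y ^ q) ^ (1 / q) := by
          gcongr
          exact minkowski hq1.le S Fj hFjm
      _ ≤ ENNReal.ofReal (c0 ^ (1 / q) * X ^ (1 / q))
          + ∑ j ∈ S, ENNReal.ofReal (c1 ^ (1 / q) * X ^ (1 / q) * lam ^ j) := by
          apply add_le_add
          · refine (ENNReal.rpow_le_rpow hcore hq1').trans ?_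
            rw [ENNReal.ofReal_rpow_of_nonneg (by positivity) hq1',
              Real.mul_rpow hc00.le hX0.le]
          · apply Finset.sum_le_sum
            intro j hj
            refine (ENNReal.rpow_le_rpow (hshell j hj) hq1').trans (le_of_eq ?_)
            rw [ENNReal.ofReal_rpow_of_nonneg (by positivity) hq1',
              Real.mul_rpow (by positivity) (by positivity), Real.mul_rpow hc10.le hX0.le,
              ← Real.rpow_mul (by positivity), mul_one_div_cancel hq0.ne', Real.rpow_one]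
      _ = ENNReal.ofReal (c0 ^ (1 / q) * X ^ (1 / q)
          + c1 ^ (1 / q) * X ^ (1 / q) * ∑ j ∈ S, lam ^ j) := by
          rw [← ENNReal.ofReal_sum_of_nonneg (fun _ _ => by positivity),
            ← ENNReal.ofReal_add (by positivity) (by positivity), Finset.mul_sum]
      _ ≤ _ := by
          apply ENNReal.ofReal_le_ofReal
          have h1 : ∑ j ∈ S, lam ^ j ≤ (1 - lam)⁻¹ := by
            rw [← tsum_geometric_of_lt_one hlam0.le hlam1]
            exact (summable_geometric_of_lt_one hlam0.le hlam1).sum_le_tsum S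
              (fun _ _ => by positivity)
          have h2 : 0 ≤ c1 ^ (1 / q) * X ^ (1 / q) := by positivity
          nlinarith [mul_le_mul_of_nonneg_left h1 h2]
  have h1 := ENNReal.rpow_le_rpow hsum hq0.le
  rw [← ENNReal.rpow_mul, one_div_mul_cancel hq0.ne', ENNReal.rpow_one,
    ENNReal.ofReal_rpow_of_nonneg (by positivity) hq0.le,
    Real.mul_rpow (by positivity) (by positivity), ← Real.rpow_mul hX0.le,
    one_div_mul_cancel hq0.ne', Real.rpow_one] at h1
  exact h1

end Pool.Agent.Helper37.Kp
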