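import Pool.Agent.Helper37.Kp.Shell
import Pool.Agent.Helper37.Kp.Sum

set_option autoImplicit false
set_option linter.unusedSectionVars false

/-!
Tubes meeting planes.
-/

open MeasureTheory Set Filter Topology ENNReal NNReal Metric

namespace Pool.Agent.Helper37.Kp

open Pool.Agent.H742R2.Kk
open Pool.Agent.W767.Kc
open Pool.Agent.K3h46.TMC

/-- The estimate of the problem, for the integrals and one family. -/
theorem hd_of_int {k : ℕ} (hk : 1 ≤ k) {Q C : ℝ} (hC : 0 < C) {q : ℝ} (hq : 1 < q) (hqQ : q ≤ Q)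
    (h : ∀ δ : ℝ, 0 < δ → δ < 1 → ∀ (ι : Type) [Fintype ι] (e a : ι → E (k + 1)),
      (∀ i, ‖e i‖ = 1) → (∀ i j, i ≠ j → δ ≤ ‖e i - e j‖) →
      ∫⁻ y, Fs δ (Icc (-(1 / 2)) (1 / 2)) e a y ^ Q ≤
        ENNReal.ofReal (C * (δ ^ k * (Fintype.card ι : ℝ) ^ (Q - 1 / k)))) :
    ∃ CH : ℝ, 0 < CH ∧ HD k q (1 + (1 - 1 / (k * (Q - 1))) * (q - 1)) CH := by
  have hk0 : (0:ℝ) < k := by exact_mod_cast hk
  have hQ1 : 0 < Q - 1 := by linarith
  set w : ℝ := (q - 1) / (Q - 1) with hw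
  have hw0 : 0 < w := by
    rw [hw]; exact div_pos (by linarith) hQ1
  have hw1 : w ≤ 1 := by
    rw [hw, div_le_one hQ1]; linarith
  refine ⟨(2 ^ k) ^ (1 - w) * C ^ w, by positivity, ?_⟩
  intro δ hδ hδ1 ι _ e a he hsep
  rcases isEmpty_or_nonempty ι with hι | hι
  · have h0 : ∀ y, Fs δ (Icc (-(1 / 2)) (1 / 2)) e a y = 0 := by
      intro y
      simp [Fs]
    simp only [h0, ENNReal.zero_rpow_of_pos (by linarith : 0 < q), lintegral_zero]
    exact zero_le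
  have hN0 : (0:ℝ) < Fintype.card ι := Nat.cast_pos.2 Fintype.card_pos
  set N : ℝ := (Fintype.card ι : ℝ) with hN
  have h1 := h δ hδ hδ1 ι e a he hsep
  have h2 := lintegral_Fs_le (p := a) hδ (by norm_num : (0:ℝ) < 1 / 2)
    (measurableSet_Icc (a := (-(1 / 2) : ℝ)) (b := 1 / 2)) le_rfl he
  set F := Fs δ (Icc (-(1 / 2)) (1 / 2)) e a with hF
  have hFm : Measurable F := measurable_Fs _ measurableSet_Icc _ _
  have h3 := Pool.Agent.H810R3.Tub.interp (μ := volume) hFm (p := q) (q := Q) (by linarith) hq.le hqQ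
  rw [← hw] at h3
  rw [← hN] at h2
  have e0 : N * (2 * (1 / 2) * (2 * δ) ^ k) = 2 ^ k * (δ ^ k * N) := by
    rw [mul_pow]; ring
  rw [e0] at h2
  have hδk : 0 < δ ^ k := by positivity
  calc ∫⁻ y, F y ^ q ≤ (∫⁻ y, F y) ^ (1 - w) * (∫⁻ y, F y ^ Q) ^ w := h3
    _ ≤ (ENNReal.ofReal (2 ^ k * (δ ^ k * N))) ^ (1 - w) *
        (ENNReal.ofReal (C * (δ ^ k * N ^ (Q - 1 / k)))) ^ w :=
        mul_le_mul' (ENNReal.rpow_le_rpow h2 (by linarith)) (ENNReal.rpow_le_rpow h1 hw0.le)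
    _ = ENNReal.ofReal ((2 ^ k * (δ ^ k * N)) ^ (1 - w) * (C * (δ ^ k * N ^ (Q - 1 / k))) ^ w) := by
        rw [ENNReal.ofReal_rpow_of_nonneg (by positivity) (by linarith),
          ENNReal.ofReal_rpow_of_nonneg (by positivity) hw0.le,
          ← ENNReal.ofReal_mul (by positivity)]
    _ = _ := by
        congr 1
        rw [Real.mul_rpow (x := 2 ^ k) (by positivity) (by positivity),
          Real.mul_rpow (x := δ ^ k) (y := N) (by positivity) (by positivity),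
          Real.mul_rpow (x := C) (by positivity) (by positivity),
          Real.mul_rpow (x := δ ^ k) (y := N ^ (Q - 1 / k)) (by positivity) (by positivity),
          ← Real.rpow_mul hN0.le]
        have e1 : δ ^ k = (δ ^ k) ^ (1 - w) * (δ ^ k) ^ w := by
          rw [← Real.rpow_add hδk, sub_add_cancel, Real.rpow_one]
        have e2 : N ^ (1 + (1 - 1 / (k * (Q - 1))) * (q - 1))
            = N ^ (1 - w) * N ^ ((Q - 1 / k) * w) := by
          rw [← Real.rpow_add hN0]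
          congr 1
          rw [hw]
          field_simp
          ring
        rw [e2]
        nth_rewrite 3 [e1]
        ring

/-- A coordinate system adapted to a subspace. -/
theorem exists_T {k m : ℕ} (V : Submodule ℝ (E (k + m + 1))) (hV : Module.finrank ℝ V = k) :
    ∃ T : WithLp 2 (E k × E (m + 1)) ≃ₗᵢ[ℝ] E (k + m + 1),
      ∀ p ∈ V, ∃ v : E k, T (WithLp.toLp 2 (v, 0)) = p := by
  have hV' : Module.finrank ℝ Vᗮ = m + 1 := by
    have h1 := V.finrank_add_finrank_orthogonal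
    rw [finrank_euclideanSpace_fin, hV] at h1
    omega
  let A : V ≃ₗᵢ[ℝ] E k := ((stdOrthonormalBasis ℝ V).reindex (finCongr hV)).repr
  let B : Vᗮ ≃ₗᵢ[ℝ] E (m + 1) := ((stdOrthonormalBasis ℝ Vᗮ).reindex (finCongr hV')).repr
  let P : WithLp 2 (E k × E (m + 1)) ≃ₗᵢ[ℝ] WithLp 2 (V × Vᗮ) :=
    LinearIsometryEquiv.withLpProdCongr 2 A.symm B.symm
  refine ⟨P.trans V.orthogonalDecomposition.symm, ?_⟩
  intro p hp
  refine ⟨A ⟨p, hp⟩, ?_⟩
  rw [LinearIsometryEquiv.trans_apply]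
  have h1 : P (WithLp.toLp 2 (A ⟨p, hp⟩, 0)) = WithLp.toLp 2 (A.symm (A ⟨p, hp⟩), B.symm 0) := rfl
  rw [h1, LinearIsometryEquiv.symm_apply_apply, map_zero, LinearIsometryEquiv.symm_apply_eq]
  rw [V.orthogonalDecomposition_apply]
  have h2 : V.orthogonalProjectionOnto p = ⟨p, hp⟩ :=
    V.orthogonalProjectionOnto_mem_subspace_eq_self ⟨p, hp⟩
  have h3 : Vᗮ.orthogonalProjectionOnto p = 0 := by
    rw [Submodule.orthogonalProjectionOnto_eq_zero_iff]
    exact V.le_orthogonal_orthogonal hp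
  rw [h2, h3]

/-- The estimate of the problem, without loss, in dimension `k + 1`. -/
def LL (k : ℕ) (Q : ℝ) : Prop := ∃ C : ℝ, 0 < C ∧
  ∀ δ : ℝ, 0 < δ → δ < 1 → ∀ (ι : Type) [Fintype ι] (e a : ι → E (k + 1)),
      (∀ i, ‖e i‖ = 1) → (∀ i j, i ≠ j → δ ≤ ‖e i - e j‖) →
      ∫⁻ y, Fs δ (Icc (-(1 / 2)) (1 / 2)) e a y ^ Q ≤
        ENNReal.ofReal (C * (δ ^ k * (Fintype.card ι : ℝ) ^ (Q - 1 / k)))

theorem Fs_translate {n : ℕ} {ι : Type} [Fintype ι] (ρ : ℝ) (S : Set ℝ) (e p : ι → E n)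
    (x0 y : E n) : Fs ρ S e (fun i => x0 + p i) y = Fs ρ S e p (y - x0) := by
  unfold Fs
  apply Finset.sum_congr rfl
  intro i _
  have e1 : y - (x0 + p i) = y - x0 - p i := by abel
  have h : y ∈ cyl ρ S (e i) (x0 + p i) ↔ y - x0 ∈ cyl ρ S (e i) (p i) := by
    show (_ ∧ _) ↔ (_ ∧ _)
    rw [e1]
  by_cases hy : y ∈ cyl ρ S (e i) (x0 + p i)
  · rw [indicator_of_mem hy, indicator_of_mem (h.1 hy)]
  · rw [indicator_of_notMem hy, indicator_of_notMem (fun h' => hy (h.2 h'))]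

/-- Tubes whose axes pass near one plane. -/
theorem one_plane {k m : ℕ} (hk : 1 ≤ k) (hm : 1 ≤ m) {c q : ℝ} (hc : 1 ≤ c)
    (hT : ∀ Q : ℝ, 1 + c / k < Q → LL k Q) (hq : 1 + c / ((k + m : ℕ) : ℝ) < q) {K R : ℝ}
    (hK : 0 ≤ K) (hR : 0 ≤ R) : ∃ C : ℝ, 0 < C ∧
    ∀ (V : Submodule ℝ (E (k + m + 1))), Module.finrank ℝ V = k → ∀ x0 : E (k + m + 1),
    ∀ δ : ℝ, 0 < δ → δ < 1 → ∀ (ι : Type) [Fintype ι] [Nonempty ι] (e a : ι → E (k + m + 1)),
    (∀ i, ‖e i‖ = 1) → (∀ i j, i ≠ j → δ ≤ ‖e i - e j‖) →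
    (∀ i, ∃ v ∈ V, ∃ s : ℝ, |s| ≤ R ∧ ‖a i + s • e i - (x0 + v)‖ ≤ K * δ) →
    ∫⁻ y, Fs δ (Icc (-(1 / 2)) (1 / 2)) e a y ^ q ≤
      ENNReal.ofReal (C * (δ ^ (k + m) * (Fintype.card ι : ℝ) ^ (q - 1 / ((k + m : ℕ) : ℝ)))) := by
  have hk0 : (0:ℝ) < k := by exact_mod_cast hk
  have hm0 : (0:ℝ) < m := by exact_mod_cast hm
  have hd0 : (0:ℝ) < ((k + m : ℕ) : ℝ) := by push_cast; linarith
  have hkd : (k:ℝ) < ((k + m : ℕ) : ℝ) := by push_cast; linarith
  set d : ℝ := ((k + m : ℕ) : ℝ) with hd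
  have hcd : 0 < c / d := by positivity
  have hq1 : 1 < q := by linarith
  -- the exponent
  have hcq : c < d * (q - 1) := by
    have h1 : c / d < q - 1 := by linarith
    rw [div_lt_iff₀ hd0] at h1
    linarith
  obtain ⟨Q, hQ1, hQ2⟩ := exists_between (a₁ := max q (1 + c / k)) (a₂ := 1 + d * (q - 1) / k) (by
    apply max_lt
    · have h1 : (q - 1) * k < d * (q - 1) := by nlinarith
      have h2 : q - 1 < d * (q - 1) / k := by
        rw [lt_div_iff₀ hk0]; exact h1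
      linarith
    · have h1 : c / k < d * (q - 1) / k := by gcongr
      linarith)
  have hqQ : q < Q := (le_max_left _ _).trans_lt hQ1
  have hcQ : 1 + c / k < Q := (le_max_right _ _).trans_lt hQ1
  have hQ0 : 0 < Q - 1 := by linarith
  have hkQ : 1 < k * (Q - 1) := by
    have h1 : c / k < Q - 1 := by linarith
    rw [div_lt_iff₀ hk0] at h1
    nlinarith
  have hkQ' : k * (Q - 1) < d * (q - 1) := by
    have h1 : Q - 1 < d * (q - 1) / k := by linarith
    rw [lt_div_iff₀ hk0] at h1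
    linarith
  set b : ℝ := 1 + (1 - 1 / (k * (Q - 1))) * (q - 1) with hb
  have hi0 : 0 < 1 / (k * (Q - 1)) := by positivity
  have hi1 : 1 / (k * (Q - 1)) < 1 := by
    rw [div_lt_one (by linarith)]; exact hkQ
  have hb1 : 1 ≤ b := by
    rw [hb]
    have : 0 ≤ (1 - 1 / (k * (Q - 1))) * (q - 1) :=
      mul_nonneg (by linarith) (by linarith)
    linarith
  have hqb : q - b = (q - 1) / (k * (Q - 1)) := by
    rw [hb]; ring
  have hbq : b < q := by
    have : 0 < (q - 1) / (k * (Q - 1)) := div_pos (by linarith) (by linarith)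
    linarith
  have hσ : 1 < d * (q - b) := by
    rw [hqb, mul_div_assoc', lt_div_iff₀ (by linarith), one_mul]
    exact hkQ'
  obtain ⟨CQ, hCQ, hQest⟩ := hT Q hcQ
  obtain ⟨CH, hCH, hHD⟩ := hd_of_int hk hCQ hq1 hqQ.le hQest
  rw [← hb] at hHD
  obtain ⟨Cs, hCs, hshell⟩ := shell_l hm hq1 hb1 hbq hCH hHD
  obtain ⟨C, hC, hsum⟩ := sum_shells (k + m) (by omega) (q := q) (b := b) (Cs := Cs) (K := K + 1)
    (R := R + K + 1) hq1 hσ hCs (by linarith) (by linarith)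
  refine ⟨C, hC, ?_⟩
  intro V hV x0 δ hδ hδ1 ι _ _ e a he hsep hcl
  obtain ⟨T, hTV⟩ := exists_T V hV
  choose v' hv' s hs hvs using hcl
  choose v hv using fun i => hTV (v' i) (hv' i)
  have h1 := hsum δ hδ hδ1.le ι e (fun i => T (WithLp.toLp 2 (v i, 0))) he hsep (by
    intro l hl
    have := hshell T δ ((K + 1) * δ) l hδ hδ1.le (by positivity) hl ι e he hsep v
    exact this)
  have hv'' : (fun i => T (WithLp.toLp 2 (v i, 0))) = v' := funext hv
  rw [hv''] at h1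
  have h2 : ∀ y, Fs δ (Icc (-(1 / 2)) (1 / 2)) e a y ≤
      Fs ((K + 1) * δ) (Icc (-(R + K + 1)) (R + K + 1)) e v' (y - x0) := by
    intro y
    rw [← Fs_translate]
    unfold Fs
    apply Finset.sum_le_sum
    intro i _
    by_cases hy : y ∈ cyl δ (Icc (-(1 / 2)) (1 / 2)) (e i) (a i)
    · have hy' : y ∈ tube δ (e i) (a i) := ⟨abs_le.2 hy.1, hy.2⟩
      rw [indicator_of_mem hy, indicator_of_mem
        (tube_sub_cyl hδ.le hδ1.le hK (hs i) (he i) (hvs i) hy')]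
    · rw [indicator_of_notMem hy]
      exact zero_le
  calc ∫⁻ y, Fs δ (Icc (-(1 / 2)) (1 / 2)) e a y ^ q
      ≤ ∫⁻ y, Fs ((K + 1) * δ) (Icc (-(R + K + 1)) (R + K + 1)) e v' (y - x0) ^ q :=
        lintegral_mono (fun y => ENNReal.rpow_le_rpow (h2 y) (by linarith))
    _ = ∫⁻ y, Fs ((K + 1) * δ) (Icc (-(R + K + 1)) (R + K + 1)) e v' y ^ q :=
        lintegral_sub_right_eq_self
          (fun y => Fs ((K + 1) * δ) (Icc (-(R + K + 1)) (R + K + 1)) e v' y ^ q) x0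
    _ ≤ _ := h1

/-- Tubes whose axes pass near one of several planes. -/
theorem planes {k m : ℕ} (hk : 1 ≤ k) (hm : 1 ≤ m) {c q : ℝ} (hc : 1 ≤ c)
    (hT : ∀ Q : ℝ, 1 + c / k < Q → LL k Q) (hq : 1 + c / ((k + m : ℕ) : ℝ) < q) {K R : ℝ}
    (hK : 0 ≤ K) (hR : 0 ≤ R) : ∃ C : ℝ, 0 < C ∧
    ∀ (M : ℕ) (V : Fin M → Submodule ℝ (E (k + m + 1))), (∀ j, Module.finrank ℝ (V j) = k) →
    ∀ x0 : Fin M → E (k + m + 1),
    ∀ δ : ℝ, 0 < δ → δ < 1 → ∀ (ι : Type) [Fintype ι] [Nonempty ι] (e a : ι → E (k + m + 1)),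
    (∀ i, ‖e i‖ = 1) → (∀ i j, i ≠ j → δ ≤ ‖e i - e j‖) →
    (∀ i, ∃ j, ∃ v ∈ V j, ∃ s : ℝ, |s| ≤ R ∧ ‖a i + s • e i - (x0 j + v)‖ ≤ K * δ) →
    (∫⁻ y, Fs δ (Icc (-(1 / 2)) (1 / 2)) e a y ^ q) ^ (1 / q) ≤
      ENNReal.ofReal (C * (M : ℝ) ^ (1 / (q * ((k + m : ℕ) : ℝ))) *
        δ ^ (((k + m : ℕ) : ℝ) / q) * (Fintype.card ι : ℝ) ^ (1 - 1 / (q * ((k + m : ℕ) : ℝ)))) := by
  have hk0 : (0:ℝ) < k := by exact_mod_cast hk
  have hm0 : (0:ℝ) < m := by exact_mod_cast hm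
  have hd1 : (1:ℝ) < ((k + m : ℕ) : ℝ) := by
    have h1 : 1 < k + m := by omega
    exact_mod_cast h1
  obtain ⟨C, hC, h⟩ := one_plane hk hm hc hT hq hK hR
  set d : ℝ := ((k + m : ℕ) : ℝ) with hd
  have hd0 : 0 < d := by linarith
  have hcd : 0 < c / d := by positivity
  have hq1 : 1 < q := by linarith
  have hq0 : 0 < q := by linarith
  have hqd : 1 < q * d := by nlinarith
  refine ⟨C ^ (1 / q) * 2, by positivity, ?_⟩
  intro M V hV x0 δ hδ hδ1 ι _ _ e a he hsep hcl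
  classical
  choose col hcol using hcl
  have hM0 : 0 < M := by
    obtain ⟨i⟩ := ‹Nonempty ι›
    exact (Nat.zero_le _).trans_lt (col i).isLt
  have hMr : (0:ℝ) < M := Nat.cast_pos.2 hM0
  set G : Fin M → E (k + m + 1) → ℝ≥0∞ := fun j => Fs (ι := {i // col i = j}) δ
    (Icc (-(1 / 2)) (1 / 2)) (fun i => e i) (fun i => a i) with hG
  have hGm : ∀ a, Measurable (G a) := fun a => measurable_Fs _ measurableSet_Icc _ _
  set n : Fin M → ℝ := fun j => (Fintype.card {i // col i = j} : ℝ) with hn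
  have hsumG : ∀ y, Fs δ (Icc (-(1 / 2)) (1 / 2)) e a y = ∑ j, G j y := by
    intro y
    simp only [hG]
    unfold Fs
    exact (Fintype.sum_fiberwise col (fun i => (cyl δ (Icc (-(1 / 2)) (1 / 2)) (e i)
      (a i)).indicator (fun _ => (1:ℝ≥0∞)) y)).symm
  have hsumn : ∑ j, n j = Fintype.card ι := by
    have h1 := Fintype.sum_fiberwise col (fun _ => (1:ℝ))
    simp only [Finset.sum_const, Finset.card_univ, nsmul_eq_mul, mul_one] at h1
    exact h1
  set θ : ℝ := 1 - 1 / (q * d) with hθ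
  have hθ0 : 0 < θ := by
    rw [hθ]
    have : 1 / (q * d) < 1 := by rw [div_lt_one (by linarith)]; exact hqd
    linarith
  have hθ1 : θ < 1 := by
    rw [hθ]
    have : 0 < 1 / (q * d) := by positivity
    linarith
  have hGj : ∀ j, (∫⁻ y, G j y ^ q) ^ (1 / q)
      ≤ ENNReal.ofReal (C ^ (1 / q) * δ ^ (d / q) * n j ^ θ) := by
    intro j
    rcases isEmpty_or_nonempty {i // col i = j} with hι | hι
    · have h0 : ∀ y, G j y = 0 := by
        intro y
        simp [hG, Fs]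
      simp only [h0, ENNReal.zero_rpow_of_pos hq0, lintegral_zero]
      rw [ENNReal.zero_rpow_of_pos (by positivity)]
      exact zero_le
    have h1 := h (V j) (hV j) (x0 j) δ hδ hδ1 {i // col i = j} (fun i => e i) (fun i => a i)
      (fun i => he i) (fun i i' hij => hsep i i' (fun h => hij (Subtype.ext h))) (by
      rintro ⟨i, hi⟩
      have := hcol i
      rw [hi] at this
      exact this)
    have hnj : 0 < n j := Nat.cast_pos.2 Fintype.card_pos
    refine (ENNReal.rpow_le_rpow h1 (by positivity)).trans (le_of_eq ?_)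
    rw [ENNReal.ofReal_rpow_of_nonneg (by positivity) (by positivity)]
    congr 1
    rw [Real.mul_rpow (by positivity) (by positivity), Real.mul_rpow (by positivity)
      (by positivity), ← Real.rpow_mul hnj.le, ← Real.rpow_natCast, ← Real.rpow_mul hδ.le, mul_assoc]
    congr 3
    · rw [← hd]; ring
    · rw [hθ]; field_simp
  have hN0 : (0:ℝ) < Fintype.card ι := Nat.cast_pos.2 Fintype.card_pos
  set N : ℝ := (Fintype.card ι : ℝ) with hN
  have hsr := Pool.Agent.H810R3.Tub.sum_rpow_le (Finset.univ : Finset (Fin M)) n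
    (fun a _ => Nat.cast_nonneg _) hsumn hN0 (J := M) (by
      rw [Finset.card_univ, Fintype.card_fin]) hMr (θ := θ) hθ0 hθ1
  simp_rw [hsumG]
  refine (minkowski hq1.le Finset.univ G hGm).trans ?_
  calc ∑ a, (∫⁻ y, G a y ^ q) ^ (1 / q)
      ≤ ∑ a, ENNReal.ofReal (C ^ (1 / q) * δ ^ (d / q) * n a ^ θ) :=
        Finset.sum_le_sum (fun a _ => hGj a)
    _ = ENNReal.ofReal (C ^ (1 / q) * δ ^ (d / q) * ∑ a, n a ^ θ) := by
        rw [Finset.mul_sum, ENNReal.ofReal_sum_of_nonneg]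
        intro a _
        have : 0 ≤ n a := Nat.cast_nonneg _
        positivity
    _ ≤ _ := by
        apply ENNReal.ofReal_le_ofReal
        calc C ^ (1 / q) * δ ^ (d / q) * ∑ a, n a ^ θ
            ≤ C ^ (1 / q) * δ ^ (d / q) * (2 * ((M:ℝ) ^ (1 - θ) * N ^ θ)) := by gcongr
          _ = _ := by
              have e1 : 1 - (1 - 1 / (q * d)) = 1 / (q * d) := by ring
              rw [hθ, e1]
              ring

end Pool.Agent.Helper37.Kp
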