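import Pool.Agent.Helper37.Kp.Unit2

set_option autoImplicit false
set_option linter.unusedSectionVars false

/-!
The estimate in all shells.
-/

open MeasureTheory Set Filter Topology ENNReal NNReal Metric

namespace Pool.Agent.Helper37.Kp

open Pool.Agent.H742R2.Kk
open Pool.Agent.W767.Kc
open Pool.Agent.K3h46.TMC

/-- The unit shell, for directions that are separated more. -/
theorem unit_shell' {k m : ℕ} (hm : 1 ≤ m) {q b CH : ℝ} (hq : 1 < q) (hb : 1 ≤ b) (hCH : 0 < CH)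
    (hHD : HD k q b CH) : ∃ C : ℝ, 0 < C ∧
    ∀ (T : WithLp 2 (E k × E (m + 1)) ≃ₗᵢ[ℝ] E (k + m + 1)) (ρ : ℝ), 0 < ρ →
    ∀ (ι : Type) [Fintype ι] (e : ι → E (k + m + 1)), (∀ i, ‖e i‖ = 1) →
    (∀ i j, i ≠ j → 5 * ρ ≤ ‖e i - e j‖) → ∀ v : ι → E k,
    ∫⁻ y, Fs ρ (shell 1) e (fun i => T (WithLp.toLp 2 (v i, 0))) y ^ q
      ≤ ENNReal.ofReal (C * (ρ ^ (k + m) * (Fintype.card ι : ℝ) ^ b)) := by
  have hq0 : 0 < q := by linarith
  obtain ⟨C, hC, h⟩ := unit_shell hm hq0 hb hCH hHD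
  refine ⟨C + 4 * 2 ^ (k + m), by positivity, ?_⟩
  intro T ρ hρ ι _ e he hsep v
  rcases isEmpty_or_nonempty ι with hι | hι
  · have h0 : ∀ y, Fs ρ (shell 1) e (fun i => T (WithLp.toLp 2 (v i, 0))) y = 0 := by
      intro y
      simp [Fs]
    simp only [h0, ENNReal.zero_rpow_of_pos hq0, lintegral_zero]
    exact zero_le
  rcases le_or_gt ρ (2 / 5) with hρ1 | hρ1
  · refine (h T ρ hρ hρ1 ι e he hsep v).trans ?_
    apply ENNReal.ofReal_le_ofReal
    gcongr
    linarith [show (0:ℝ) ≤ 4 * 2 ^ (k + m) by positivity]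
  · have hsub : Subsingleton ι := by
      constructor
      intro i j
      by_contra hij
      have h1 := hsep i j hij
      have h2 := norm_sub_le (e i) (e j)
      rw [he, he] at h2
      linarith
    have hc1 : Fintype.card ι = 1 := by
      apply le_antisymm (Fintype.card_le_one_iff_subsingleton.2 hsub) Fintype.card_pos
    have h1 := lintegral_Fs_le (p := fun i => T (WithLp.toLp 2 (v i, (0 : E (m + 1))))) hρ
      (by norm_num : (0:ℝ) < 2 * 1) (measurableSet_shell 1) shell_sub_Icc he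
    have h2 : ∀ y, Fs ρ (shell 1) e (fun i => T (WithLp.toLp 2 (v i, 0))) y ^ q
        ≤ Fs ρ (shell 1) e (fun i => T (WithLp.toLp 2 (v i, 0))) y := by
      intro y
      have h3 := Fs_le ρ (shell 1) e (fun i => T (WithLp.toLp 2 (v i, (0 : E (m + 1))))) y
      rw [hc1, Nat.cast_one] at h3
      exact ENNReal.rpow_le_self_of_le_one h3 hq.le
    refine (lintegral_mono h2).trans (h1.trans ?_)
    apply ENNReal.ofReal_le_ofReal
    rw [hc1, Nat.cast_one, Real.one_rpow, mul_pow]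
    have h4 : 0 ≤ C * ρ ^ (k + m) := by positivity
    nlinarith

theorem unit_col {k m : ℕ} (hm : 1 ≤ m) {q b CH : ℝ} (hq : 1 < q) (hb : 1 ≤ b) (hbq : b < q)
    (hCH : 0 < CH) (hHD : HD k q b CH) : ∃ C : ℝ, 0 < C ∧
    ∀ (T : WithLp 2 (E k × E (m + 1)) ≃ₗᵢ[ℝ] E (k + m + 1)) (δ ρ : ℝ), 0 < δ → δ ≤ 1 → 0 < ρ →
    ∀ (ι : Type) [Fintype ι] [Nonempty ι] (e : ι → E (k + m + 1)), (∀ i, ‖e i‖ = 1) →
    (∀ i j, i ≠ j → δ ≤ ‖e i - e j‖) → ∀ v : ι → E k,
    ∫⁻ y, Fs ρ (shell 1) e (fun i => T (WithLp.toLp 2 (v i, 0))) y ^ q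
      ≤ ENNReal.ofReal (C * (((δ + ρ) / δ) ^ (((k + m : ℕ) : ℝ) * (q - b))
        * (Fintype.card ι : ℝ) ^ b) * ρ ^ (k + m)) := by
  have hq0 : 0 < q := by linarith
  obtain ⟨C, hC, h⟩ := unit_shell' hm hq hb hCH hHD
  obtain ⟨C1, hC1, hpack⟩ := cap_packing (k + m)
  set d : ℕ := k + m with hd
  refine ⟨C * (2 * (C1 * 5 ^ d + 1) ^ (1 - b / q)) ^ q, by positivity, ?_⟩
  intro T δ ρ hδ hδ1 hρ ι _ _ e he hsep v
  classical
  set B : ℝ := (δ + ρ) / δ with hB
  have hB1 : 1 ≤ B := by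
    rw [hB, le_div_iff₀ hδ, one_mul]
    linarith
  have hBd : 1 ≤ B ^ d := one_le_pow₀ hB1
  -- colouring
  set K : ℕ := ⌊C1 * 5 ^ d * B ^ d⌋₊ + 1 with hK
  have hKle : (K : ℝ) ≤ (C1 * 5 ^ d + 1) * B ^ d := by
    have h1 : (⌊C1 * 5 ^ d * B ^ d⌋₊ : ℝ) ≤ C1 * 5 ^ d * B ^ d := Nat.floor_le (by positivity)
    rw [hK]
    push_cast
    nlinarith
  obtain ⟨c, hc⟩ := greedy_colour (fun i j => ‖e i - e j‖ < 5 * ρ)
    (fun i j h => by rwa [norm_sub_rev] at h) K (Nat.succ_pos _) (by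
      intro i
      rw [hK]
      apply Nat.lt_succ_of_le
      apply Nat.le_floor
      refine (hpack δ (5 * ρ) hδ hδ1 (by positivity) ι _ e (e i) (he i) (fun j _ => he j)
        (fun j _ k _ hjk => hsep j k hjk) ?_).trans ?_
      · intro j hj
        have := (Finset.mem_filter.1 hj).2.2
        rw [norm_sub_rev]
        exact this.le
      · rw [mul_assoc, ← mul_pow]
        gcongr
        rw [hB, mul_div_assoc']
        gcongr
        linarith)
  set G : Fin K → E (d + 1) → ℝ≥0∞ := fun a => Fs (ι := {i // c i = a}) ρ (shell 1)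
    (fun i => e i) (fun i => T (WithLp.toLp 2 (v i, 0))) with hG
  have hGm : ∀ a, Measurable (G a) := fun a => measurable_Fs _ (measurableSet_shell _) _ _
  set n : Fin K → ℝ := fun a => (Fintype.card {i // c i = a} : ℝ) with hn
  have hsumG : ∀ y, Fs ρ (shell 1) e (fun i => T (WithLp.toLp 2 (v i, 0))) y
      = ∑ a, G a y := by
    intro y
    simp only [hG]
    unfold Fs
    exact (Fintype.sum_fiberwise c (fun i => (cyl ρ (shell 1) (e i)
      (T (WithLp.toLp 2 (v i, 0)))).indicator (fun _ => (1:ℝ≥0∞)) y)).symm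
  have hsumn : ∑ a, n a = Fintype.card ι := by
    have h1 := Fintype.sum_fiberwise c (fun _ => (1:ℝ))
    simp only [Finset.sum_const, Finset.card_univ, nsmul_eq_mul, mul_one] at h1
    exact h1
  have hGa : ∀ a, (∫⁻ y, G a y ^ q) ^ (1 / q)
      ≤ ENNReal.ofReal ((C * ρ ^ d) ^ (1 / q) * n a ^ (b / q)) := by
    intro a
    have h1 := h T ρ hρ {i // c i = a} (fun i => e i) (fun i => he i) (by
      intro i j hij
      by_contra hcon
      push Not at hcon
      exact hc i j (fun h => hij (Subtype.ext h)) hcon (i.2.trans j.2.symm)) (fun i => v i)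
    have hn0 : 0 ≤ n a := Nat.cast_nonneg _
    refine (ENNReal.rpow_le_rpow h1 (by positivity)).trans (le_of_eq ?_)
    rw [ENNReal.ofReal_rpow_of_nonneg (by positivity) (by positivity)]
    congr 1
    rw [← mul_assoc, Real.mul_rpow (by positivity) (by positivity), ← Real.rpow_mul hn0]
    congr 2
    ring
  have hN0 : (0:ℝ) < Fintype.card ι := Nat.cast_pos.2 Fintype.card_pos
  set N : ℝ := (Fintype.card ι : ℝ) with hN
  have hsr := Pool.Agent.H810R3.Tub.sum_rpow_le (Finset.univ : Finset (Fin K)) n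
    (fun a _ => Nat.cast_nonneg _) hsumn hN0 (J := (C1 * 5 ^ d + 1) * B ^ d) (by
      rw [Finset.card_univ, Fintype.card_fin]
      exact hKle) (by positivity) (θ := b / q) (by positivity) (by rw [div_lt_one hq0]; exact hbq)
  have h1 : (∫⁻ y, Fs ρ (shell 1) e (fun i => T (WithLp.toLp 2 (v i, 0))) y ^ q) ^ (1 / q)
      ≤ ENNReal.ofReal ((C * ρ ^ d) ^ (1 / q) *
        (2 * (((C1 * 5 ^ d + 1) * B ^ d) ^ (1 - b / q) * N ^ (b / q)))) := by
    simp_rw [hsumG]
    refine (minkowski hq.le Finset.univ G hGm).trans ?_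
    calc ∑ a, (∫⁻ y, G a y ^ q) ^ (1 / q)
        ≤ ∑ a, ENNReal.ofReal ((C * ρ ^ d) ^ (1 / q) * n a ^ (b / q)) :=
          Finset.sum_le_sum (fun a _ => hGa a)
      _ = ENNReal.ofReal ((C * ρ ^ d) ^ (1 / q) * ∑ a, n a ^ (b / q)) := by
          rw [Finset.mul_sum, ENNReal.ofReal_sum_of_nonneg]
          intro a _
          have : 0 ≤ n a := Nat.cast_nonneg _
          positivity
      _ ≤ _ := by
          apply ENNReal.ofReal_le_ofReal
          gcongr
  have h2 := ENNReal.rpow_le_rpow h1 hq0.le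
  rw [← ENNReal.rpow_mul, one_div_mul_cancel hq0.ne', ENNReal.rpow_one,
    ENNReal.ofReal_rpow_of_nonneg (by positivity) hq0.le] at h2
  refine h2.trans (le_of_eq ?_)
  congr 1
  have hB0 : 0 < B := by linarith
  rw [Real.mul_rpow (by positivity) (by positivity), ← Real.rpow_mul (by positivity),
    one_div_mul_cancel hq0.ne', Real.rpow_one,
    Real.mul_rpow (x := C1 * 5 ^ d + 1) (by positivity) (by positivity)]
  have e1 : (2 * ((C1 * 5 ^ d + 1) ^ (1 - b / q) * (B ^ d) ^ (1 - b / q) * N ^ (b / q))) ^ q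
      = (2 * (C1 * 5 ^ d + 1) ^ (1 - b / q)) ^ q * (((B ^ d) ^ (1 - b / q)) ^ q
        * (N ^ (b / q)) ^ q) := by
    have g1 : 0 ≤ (C1 * 5 ^ d + 1) ^ (1 - b / q) := by positivity
    have g2 : 0 ≤ (B ^ d) ^ (1 - b / q) := by positivity
    have g3 : 0 ≤ N ^ (b / q) := by positivity
    generalize (C1 * 5 ^ d + 1) ^ (1 - b / q) = X1 at *
    generalize (B ^ d) ^ (1 - b / q) = X2 at *
    generalize N ^ (b / q) = X3 at *
    have g4 : 2 * (X1 * X2 * X3) = (2 * X1) * (X2 * X3) := by ring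
    rw [g4, Real.mul_rpow (by positivity) (by positivity), Real.mul_rpow g2 g3]
  have e2 : ((B ^ d) ^ (1 - b / q)) ^ q = B ^ ((d:ℝ) * (q - b)) := by
    rw [← Real.rpow_natCast, ← Real.rpow_mul hB0.le, ← Real.rpow_mul hB0.le]
    congr 1
    field_simp
  have e3 : (N ^ (b / q)) ^ q = N ^ b := by
    rw [← Real.rpow_mul hN0.le]
    congr 1
    field_simp
  rw [e1, e2, e3]
  ring

theorem shell_l {k m : ℕ} (hm : 1 ≤ m) {q b CH : ℝ} (hq : 1 < q) (hb : 1 ≤ b) (hbq : b < q)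
    (hCH : 0 < CH) (hHD : HD k q b CH) : ∃ C : ℝ, 0 < C ∧
    ∀ (T : WithLp 2 (E k × E (m + 1)) ≃ₗᵢ[ℝ] E (k + m + 1)) (δ ρ l : ℝ), 0 < δ → δ ≤ 1 → 0 < ρ →
    ρ ≤ l →
    ∀ (ι : Type) [Fintype ι] [Nonempty ι] (e : ι → E (k + m + 1)), (∀ i, ‖e i‖ = 1) →
    (∀ i j, i ≠ j → δ ≤ ‖e i - e j‖) → ∀ v : ι → E k,
    ∫⁻ y, Fs ρ (shell l) e (fun i => T (WithLp.toLp 2 (v i, 0))) y ^ q
      ≤ ENNReal.ofReal (C * (((δ + ρ / l) / δ) ^ (((k + m : ℕ) : ℝ) * (q - b))
        * (Fintype.card ι : ℝ) ^ b) * (l * ρ ^ (k + m))) := by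
  obtain ⟨C, hC, h⟩ := unit_col hm hq hb hbq hCH hHD
  refine ⟨C, hC, ?_⟩
  intro T δ ρ l hδ hδ1 hρ hl ι _ _ e he hsep v
  have hl0 : 0 < l := by linarith
  have h1 := h T δ (ρ / l) hδ hδ1 (by positivity) ι e he hsep (fun i => l⁻¹ • v i)
  have h2 := lintegral_Fs_smul (ρ := ρ / l) (q := q) hl0 (S := shell 1) (S' := shell l) (by
    intro s
    show (_ ∧ _) ↔ (_ ∧ _)
    rw [abs_mul, abs_of_pos hl0]
    constructor
    · rintro ⟨h3, h4⟩
      constructor
      · nlinarith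
      · nlinarith
    · rintro ⟨h3, h4⟩
      constructor
      · nlinarith
      · nlinarith) (measurableSet_shell l) e (fun i => T (WithLp.toLp 2 (l⁻¹ • v i, 0)))
  have e1 : l * (ρ / l) = ρ := by field_simp
  have e2 : (fun i => l • T (WithLp.toLp 2 (l⁻¹ • v i, (0 : E (m + 1)))))
      = fun i => T (WithLp.toLp 2 (v i, 0)) := by
    funext i
    rw [← map_smul]
    congr 1
    have : l • (WithLp.toLp 2 (l⁻¹ • v i, (0 : E (m + 1))) : WithLp 2 (E k × E (m + 1)))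
        = WithLp.toLp 2 (l • l⁻¹ • v i, l • (0 : E (m + 1))) := rfl
    rw [this, smul_smul, mul_inv_cancel₀ hl0.ne', one_smul, smul_zero]
  rw [e1, e2] at h2
  rw [h2]
  calc ENNReal.ofReal (l ^ (k + m + 1)) *
        ∫⁻ y, Fs (ρ / l) (shell 1) e (fun i => T (WithLp.toLp 2 (l⁻¹ • v i, 0))) y ^ q
      ≤ ENNReal.ofReal (l ^ (k + m + 1)) *
        ENNReal.ofReal (C * (((δ + ρ / l) / δ) ^ (((k + m : ℕ) : ℝ) * (q - b))
        * (Fintype.card ι : ℝ) ^ b) * (ρ / l) ^ (k + m)) := by gcongr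
    _ = _ := by
        rw [← ENNReal.ofReal_mul (by positivity)]
        congr 1
        rw [div_pow ρ l, pow_succ]
        have : l ^ (k + m) ≠ 0 := by positivity
        field_simp

end Pool.Agent.Helper37.Kp
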