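import Pool.Agent.Helper37.Kp.Dec

set_option autoImplicit false
set_option linter.unusedSectionVars false

/-!
The estimate in a half space of dimension `k + 1`.
-/

open MeasureTheory Set Filter Topology ENNReal NNReal Metric

namespace Pool.Agent.Helper37.Kp

open Pool.Agent.H742R2.Kk
open Pool.Agent.W767.Kc
open Pool.Agent.K3h46.TMC

/-- Membership in scaled cylinders. -/
theorem mem_cyl_smul {n : ℕ} {ρ c : ℝ} (hc : 0 < c) {S S' : Set ℝ} (hS : ∀ s, c * s ∈ S' ↔ s ∈ S)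
    (e p y : E n) : c • y ∈ cyl (c * ρ) S' e (c • p) ↔ y ∈ cyl ρ S e p := by
  have e1 : c • y - c • p = c • (y - p) := (smul_sub _ _ _).symm
  have e2 : (inner ℝ (c • y - c • p) e : ℝ) = c * inner ℝ (y - p) e := by
    rw [e1, inner_smul_left]; simp
  have e3 : (c • y - c • p) - (inner ℝ (c • y - c • p) e : ℝ) • e
      = c • ((y - p) - (inner ℝ (y - p) e : ℝ) • e) := by
    rw [e2, e1, ← smul_smul, ← smul_sub]
  show (_ ∧ _) ↔ (_ ∧ _)
  rw [e3, e2, hS, norm_smul, Real.norm_of_nonneg hc.le, mul_le_mul_iff_right₀ hc]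

theorem Fs_smul {n : ℕ} {ι : Type} [Fintype ι] {ρ c : ℝ} (hc : 0 < c) {S S' : Set ℝ}
    (hS : ∀ s, c * s ∈ S' ↔ s ∈ S) (e p : ι → E n) (y : E n) :
    Fs (c * ρ) S' e (fun i => c • p i) (c • y) = Fs ρ S e p y := by
  unfold Fs
  apply Finset.sum_congr rfl
  intro i _
  by_cases h : y ∈ cyl ρ S (e i) (p i)
  · rw [indicator_of_mem h, indicator_of_mem ((mem_cyl_smul hc hS _ _ _).2 h)]
  · rw [indicator_of_notMem h, indicator_of_notMem (fun h' => h ((mem_cyl_smul hc hS _ _ _).1 h'))]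

theorem lintegral_Fs_smul {n : ℕ} {ι : Type} [Fintype ι] {ρ c q : ℝ} (hc : 0 < c) {S S' : Set ℝ}
    (hS : ∀ s, c * s ∈ S' ↔ s ∈ S) (hS' : MeasurableSet S') (e p : ι → E n) :
    ∫⁻ y, Fs (c * ρ) S' e (fun i => c • p i) y ^ q
      = ENNReal.ofReal (c ^ n) * ∫⁻ y, Fs ρ S e p y ^ q := by
  have h1 : ∫⁻ y, Fs ρ S e p y ^ q
      = ∫⁻ y, Fs (c * ρ) S' e (fun i => c • p i) y ^ q
        ∂(Measure.map (fun w : E n => c • w) volume) := by
    rw [lintegral_map]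
    · apply lintegral_congr
      intro y
      rw [Fs_smul hc hS]
    · exact (measurable_Fs _ hS' _ _).pow_const _
    · exact measurable_const_smul _
  have h2 := Measure.map_addHaar_smul (volume : Measure (E n)) hc.ne'
  rw [finrank_euclideanSpace_fin] at h2
  rw [h1, h2, lintegral_smul_measure, smul_eq_mul, ← mul_assoc, ← ENNReal.ofReal_mul (by positivity),
    abs_of_pos (by positivity), mul_inv_cancel₀ (by positivity), ENNReal.ofReal_one, one_mul]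

/-- The estimate used in dimension `k + 1`. -/
def HD (k : ℕ) (q b CH : ℝ) : Prop :=
  ∀ δ : ℝ, 0 < δ → δ < 1 → ∀ (ι : Type) [Fintype ι] (e a : ι → E (k + 1)), (∀ i, ‖e i‖ = 1) →
    (∀ i j, i ≠ j → δ ≤ ‖e i - e j‖) →
    ∫⁻ y, Fs δ (Icc (-(1 / 2)) (1 / 2)) e a y ^ q ≤
      ENNReal.ofReal (CH * (δ ^ k * (Fintype.card ι : ℝ) ^ b))

theorem HD_scaled {k : ℕ} {q b CH : ℝ} (h : HD k q b CH) {ρ : ℝ} (hρ : 0 < ρ)
    (hρ1 : ρ < 1) (ι : Type) [Fintype ι] (e a : ι → E (k + 1)) (he : ∀ i, ‖e i‖ = 1)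
    (hsep : ∀ i j, i ≠ j → ρ ≤ ‖e i - e j‖) :
    ∫⁻ y, Fs ρ (Icc (-4) 4) e a y ^ q ≤
      ENNReal.ofReal (8 ^ (k + 1) * (CH * ((ρ / 8) ^ k * (Fintype.card ι : ℝ) ^ b))) := by
  have h1 := h (ρ / 8) (by positivity) (by linarith) ι e (fun i => (8:ℝ)⁻¹ • a i) he
    (fun i j hij => le_trans (by linarith) (hsep i j hij))
  have h2 := lintegral_Fs_smul (ρ := ρ / 8) (q := q) (by norm_num : (0:ℝ) < 8)
    (S := Icc (-(1 / 2)) (1 / 2)) (S' := Icc (-4) 4) (by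
      intro s
      rw [mem_Icc, mem_Icc]
      constructor
      · rintro ⟨h3, h4⟩; constructor <;> linarith
      · rintro ⟨h3, h4⟩; constructor <;> linarith) measurableSet_Icc e (fun i => (8:ℝ)⁻¹ • a i)
  have e1 : 8 * (ρ / 8) = ρ := by ring
  simp only [smul_smul] at h2
  rw [e1] at h2
  norm_num at h2
  rw [h2, ENNReal.ofReal_mul (by positivity)]
  norm_num at h1
  gcongr
  exact_mod_cast (le_refl ((8:ℝ) ^ (k + 1)))

theorem perp_le {X : Type} [NormedAddCommGroup X] [InnerProductSpace ℝ X] {u : X} (hu : ‖u‖ = 1)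
    (w : X) (t : ℝ) : ‖w - (inner ℝ w u : ℝ) • u‖ ≤ ‖w - t • u‖ := by
  have e1 : ∀ a : ℝ, ‖w - a • u‖ ^ 2 = ‖w‖ ^ 2 - 2 * a * inner ℝ w u + a ^ 2 := by
    intro a
    rw [norm_sub_sq_real, inner_smul_right, norm_smul, hu, mul_one, Real.norm_eq_abs, sq_abs]
    ring
  have h6 : ‖w - (inner ℝ w u : ℝ) • u‖ ^ 2 ≤ ‖w - t • u‖ ^ 2 := by
    rw [e1, e1]
    nlinarith [sq_nonneg (t - (inner ℝ w u : ℝ))]
  exact le_of_sq_le_sq h6 (norm_nonneg _)

theorem exists_T2 (k : ℕ) : Nonempty (WithLp 2 (E k × ℝ) ≃ₗᵢ[ℝ] E (k + 1)) := by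
  have h : Module.finrank ℝ (WithLp 2 (E k × ℝ)) = k + 1 := by
    rw [(WithLp.linearEquiv 2 ℝ (E k × ℝ)).finrank_eq, Module.finrank_prod,
      finrank_euclideanSpace_fin, Module.finrank_self]
  exact ⟨((stdOrthonormalBasis ℝ (WithLp 2 (E k × ℝ))).reindex (finCongr h)).repr⟩

/-- Norms in the slice. -/
theorem slice_norm {k m : ℕ} {u : E (m + 1)} (hu : ‖u‖ = 1) (x : E k) (s : ℝ) :
    ‖(WithLp.toLp 2 (x, s • u) : WithLp 2 (E k × E (m + 1)))‖
      = ‖(WithLp.toLp 2 (x, s) : WithLp 2 (E k × ℝ))‖ := by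
  rw [← sq_eq_sq₀ (norm_nonneg _) (norm_nonneg _), WithLp.prod_norm_sq_eq_of_L2,
    WithLp.prod_norm_sq_eq_of_L2]
  change ‖x‖ ^ 2 + ‖s • u‖ ^ 2 = ‖x‖ ^ 2 + ‖s‖ ^ 2
  rw [norm_smul, hu, mul_one]

theorem snd_le {X Y : Type} [NormedAddCommGroup X] [InnerProductSpace ℝ X]
    [NormedAddCommGroup Y] [InnerProductSpace ℝ Y] (x : X) (y : Y) :
    ‖y‖ ≤ ‖(WithLp.toLp 2 (x, y) : WithLp 2 (X × Y))‖ := by
  apply le_of_sq_le_sq _ (norm_nonneg _)
  rw [WithLp.prod_norm_sq_eq_of_L2]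
  change ‖y‖ ^ 2 ≤ ‖x‖ ^ 2 + ‖y‖ ^ 2
  nlinarith [sq_nonneg ‖x‖]

theorem norm_mono_snd {X Y Y' : Type} [NormedAddCommGroup X] [InnerProductSpace ℝ X]
    [NormedAddCommGroup Y] [InnerProductSpace ℝ Y] [NormedAddCommGroup Y'] [InnerProductSpace ℝ Y']
    (x : X) {y : Y} {y' : Y'} (h : ‖y‖ ≤ ‖y'‖) :
    ‖(WithLp.toLp 2 (x, y) : WithLp 2 (X × Y))‖ ≤ ‖(WithLp.toLp 2 (x, y') : WithLp 2 (X × Y'))‖ := by
  apply le_of_sq_le_sq _ (norm_nonneg _)
  rw [WithLp.prod_norm_sq_eq_of_L2, WithLp.prod_norm_sq_eq_of_L2]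
  change ‖x‖ ^ 2 + ‖y‖ ^ 2 ≤ ‖x‖ ^ 2 + ‖y'‖ ^ 2
  nlinarith [norm_nonneg y, norm_nonneg y']

theorem comb {X Y : Type} [NormedAddCommGroup X] [InnerProductSpace ℝ X]
    [NormedAddCommGroup Y] [InnerProductSpace ℝ Y] (x x' x'' : X) (y y' y'' : Y) (t : ℝ) :
    (WithLp.toLp 2 (x, y) : WithLp 2 (X × Y)) - WithLp.toLp 2 (x', y') - t • WithLp.toLp 2 (x'', y'')
      = WithLp.toLp 2 (x - x' - t • x'', y - y' - t • y'') := rfl

theorem slice_est {k m d : ℕ} (T : WithLp 2 (E k × E (m + 1)) ≃ₗᵢ[ℝ] E (d + 1)) {q b CH : ℝ}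
    (hq : 0 < q) (hHD : HD k q b CH) {ρ : ℝ} (hρ : 0 < ρ) (hρ1 : ρ ≤ 2 / 5)
    {u : E (m + 1)} (hu : ‖u‖ = 1) (ι : Type) [Fintype ι] (f : ι → E k) (g : ι → E (m + 1))
    (hunit : ∀ i, ‖T (WithLp.toLp 2 (f i, g i))‖ = 1)
    (hsep : ∀ i j, i ≠ j →
      5 * ρ ≤ ‖T (WithLp.toLp 2 (f i, g i)) - T (WithLp.toLp 2 (f j, g j))‖)
    (hnear : ∀ i, ‖g i - (inner ℝ (g i) u : ℝ) • u‖ ≤ ρ) (v : ι → E k) :
    ∫⁻ s : ℝ, ∫⁻ x : E k, Fs ρ (shell 1) (fun i => T (WithLp.toLp 2 (f i, g i)))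
        (fun i => T (WithLp.toLp 2 (v i, 0))) (T (WithLp.toLp 2 (x, s • u))) ^ q
      ≤ ENNReal.ofReal (8 ^ (k + 1) * (CH * ((ρ / 8) ^ k * (Fintype.card ι : ℝ) ^ b))) := by
  obtain ⟨T2⟩ := exists_T2 k
  set G : ι → E (k + 1) := fun i => T2 (WithLp.toLp 2 (f i, (inner ℝ (g i) u : ℝ))) with hG
  set G' : ι → E (k + 1) := fun i => ‖G i‖⁻¹ • G i with hG'
  set z : ι → E (k + 1) := fun i => T2 (WithLp.toLp 2 (v i, (0:ℝ))) with hz
  -- the norm of the direction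
  have hdist : ∀ i, ‖T (WithLp.toLp 2 (f i, g i)) -
      T (WithLp.toLp 2 (f i, (inner ℝ (g i) u : ℝ) • u))‖ ≤ ρ := by
    intro i
    rw [← map_sub, LinearIsometryEquiv.norm_map, ← WithLp.toLp_sub, Prod.mk_sub_mk, sub_self]
    have h1 : ‖(WithLp.toLp 2 ((0 : E k), g i - (inner ℝ (g i) u : ℝ) • u) :
        WithLp 2 (E k × E (m + 1)))‖ ≤ ρ := by
      apply le_of_sq_le_sq _ hρ.le
      rw [WithLp.prod_norm_sq_eq_of_L2]
      change ‖(0 : E k)‖ ^ 2 + ‖g i - (inner ℝ (g i) u : ℝ) • u‖ ^ 2 ≤ ρ ^ 2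
      rw [norm_zero]
      have := hnear i
      nlinarith [norm_nonneg (g i - (inner ℝ (g i) u : ℝ) • u)]
    exact h1
  have hGn : ∀ i, ‖G i‖ = ‖T (WithLp.toLp 2 (f i, (inner ℝ (g i) u : ℝ) • u))‖ := by
    intro i
    rw [hG]
    rw [LinearIsometryEquiv.norm_map, LinearIsometryEquiv.norm_map, slice_norm hu]
  have hG1 : ∀ i, |‖G i‖ - 1| ≤ ρ := by
    intro i
    rw [hGn, ← hunit i]
    refine (abs_norm_sub_norm_le _ _).trans ?_
    rw [norm_sub_rev]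
    exact hdist i
  have hGpos : ∀ i, 0 < ‖G i‖ := by
    intro i
    have := (abs_le.1 (hG1 i)).1
    linarith
  have hG'u : ∀ i, ‖G' i‖ = 1 := by
    intro i
    rw [hG']
    simp only
    rw [norm_smul, norm_inv, norm_norm, inv_mul_cancel₀ (hGpos i).ne']
  have hGG' : ∀ i, ‖G' i - G i‖ ≤ ρ := by
    intro i
    have e1 : G' i - G i = (1 - ‖G i‖) • G' i := by
      rw [hG']
      simp only
      rw [sub_smul, one_smul, smul_smul, mul_inv_cancel₀ (hGpos i).ne', one_smul]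
    rw [e1, norm_smul, hG'u, mul_one, Real.norm_eq_abs, abs_sub_comm]
    exact hG1 i
  have hG'sep : ∀ i j, i ≠ j → ρ ≤ ‖G' i - G' j‖ := by
    intro i j hij
    have h1 := hsep i j hij
    have h2 : ‖G i - G j‖ = ‖T (WithLp.toLp 2 (f i, (inner ℝ (g i) u : ℝ) • u))
        - T (WithLp.toLp 2 (f j, (inner ℝ (g j) u : ℝ) • u))‖ := by
      rw [hG]
      simp only
      rw [← map_sub, ← map_sub, LinearIsometryEquiv.norm_map, LinearIsometryEquiv.norm_map,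
        ← WithLp.toLp_sub, ← WithLp.toLp_sub, Prod.mk_sub_mk, Prod.mk_sub_mk, ← sub_smul,
        slice_norm hu]
    have h3 : ‖T (WithLp.toLp 2 (f i, g i)) - T (WithLp.toLp 2 (f j, g j))‖
        ≤ ρ + ‖G i - G j‖ + ρ := by
      rw [h2]
      have e1 : T (WithLp.toLp 2 (f i, g i)) - T (WithLp.toLp 2 (f j, g j))
          = (T (WithLp.toLp 2 (f i, g i)) - T (WithLp.toLp 2 (f i, (inner ℝ (g i) u : ℝ) • u)))
            + (T (WithLp.toLp 2 (f i, (inner ℝ (g i) u : ℝ) • u))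
              - T (WithLp.toLp 2 (f j, (inner ℝ (g j) u : ℝ) • u)))
            - (T (WithLp.toLp 2 (f j, g j))
              - T (WithLp.toLp 2 (f j, (inner ℝ (g j) u : ℝ) • u))) := by abel
      rw [e1]
      refine (norm_sub_le _ _).trans ?_
      refine add_le_add ((norm_add_le _ _).trans (add_le_add (hdist i) le_rfl)) (hdist j)
    have h4 : ‖G i - G j‖ ≤ ρ + ‖G' i - G' j‖ + ρ := by
      have e1 : G i - G j = -(G' i - G i) + (G' i - G' j) + (G' j - G j) := by abel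
      rw [e1]
      refine (norm_add_le _ _).trans ?_
      refine add_le_add ((norm_add_le _ _).trans ?_) (hGG' j)
      rw [norm_neg]
      exact add_le_add (hGG' i) le_rfl
    linarith
  -- the inclusion
  have hincl : ∀ i (s : ℝ) (x : E k),
      T (WithLp.toLp 2 (x, s • u)) ∈ cyl ρ (shell 1) (T (WithLp.toLp 2 (f i, g i)))
        (T (WithLp.toLp 2 (v i, 0))) →
      T2 (WithLp.toLp 2 (x, s)) ∈ cyl ρ (Icc (-4) 4) (G' i) (z i) := by
    rintro i s x ⟨h1, h2⟩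
    set t : ℝ := inner ℝ (T (WithLp.toLp 2 (x, s • u)) - T (WithLp.toLp 2 (v i, 0)))
      (T (WithLp.toLp 2 (f i, g i))) with ht
    have h3 : ‖T2 (WithLp.toLp 2 (x, s)) - z i - t • G i‖ ≤ ρ := by
      refine le_trans ?_ h2
      rw [hz, hG]
      simp only
      rw [← map_smul, ← map_smul, ← map_sub, ← map_sub, ← map_sub, ← map_sub,
        LinearIsometryEquiv.norm_map, LinearIsometryEquiv.norm_map, comb, comb]
      apply norm_mono_snd
      rw [sub_zero, sub_zero]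
      have e1 : s - t • (inner ℝ (g i) u : ℝ) = inner ℝ (s • u - t • g i) u := by
        rw [inner_sub_left, inner_smul_left, inner_smul_left, real_inner_self_eq_norm_sq, hu]
        simp
      rw [e1, Real.norm_eq_abs]
      refine (abs_real_inner_le_norm _ _).trans ?_
      rw [hu, mul_one]
    have h4 : t • G i = (t * ‖G i‖) • G' i := by
      rw [hG']
      simp only
      rw [smul_smul, mul_assoc, mul_inv_cancel₀ (hGpos i).ne', mul_one]
    rw [h4] at h3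
    have h5 : |t| ≤ 2 := by
      have := h1.2
      linarith
    have h6 : ‖T2 (WithLp.toLp 2 (x, s)) - z i‖ ≤ 4 := by
      have e1 : T2 (WithLp.toLp 2 (x, s)) - z i
          = (T2 (WithLp.toLp 2 (x, s)) - z i - (t * ‖G i‖) • G' i) + (t * ‖G i‖) • G' i := by
        abel
      rw [e1]
      refine (norm_add_le _ _).trans ?_
      rw [norm_smul, hG'u, mul_one, Real.norm_eq_abs, abs_mul, abs_norm]
      have h7 := (abs_le.1 (hG1 i)).2
      have h8 : |t| * ‖G i‖ ≤ 2 * (1 + ρ) := by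
        apply mul_le_mul h5 (by linarith) (norm_nonneg _) (by norm_num)
      linarith
    refine ⟨?_, (perp_le (hG'u i) _ _).trans h3⟩
    rw [mem_Icc, ← abs_le]
    refine (abs_real_inner_le_norm _ _).trans ?_
    rw [hG'u, mul_one]
    exact h6
  have hle : ∀ (s : ℝ) (x : E k), Fs ρ (shell 1) (fun i => T (WithLp.toLp 2 (f i, g i)))
        (fun i => T (WithLp.toLp 2 (v i, 0))) (T (WithLp.toLp 2 (x, s • u)))
      ≤ Fs ρ (Icc (-4) 4) G' z (T2 (WithLp.toLp 2 (x, s))) := by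
    intro s x
    unfold Fs
    apply Finset.sum_le_sum
    intro i _
    by_cases h : T (WithLp.toLp 2 (x, s • u)) ∈ cyl ρ (shell 1) (T (WithLp.toLp 2 (f i, g i)))
        (T (WithLp.toLp 2 (v i, 0)))
    · rw [indicator_of_mem h, indicator_of_mem (hincl i s x h)]
    · rw [indicator_of_notMem h]
      exact zero_le
  calc ∫⁻ s : ℝ, ∫⁻ x : E k, Fs ρ (shell 1) (fun i => T (WithLp.toLp 2 (f i, g i)))
        (fun i => T (WithLp.toLp 2 (v i, 0))) (T (WithLp.toLp 2 (x, s • u))) ^ q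
      ≤ ∫⁻ s : ℝ, ∫⁻ x : E k, Fs ρ (Icc (-4) 4) G' z (T2 (WithLp.toLp 2 (x, s))) ^ q := by
        apply lintegral_mono
        intro s
        apply lintegral_mono
        intro x
        exact ENNReal.rpow_le_rpow (hle s x) hq.le
    _ = ∫⁻ y, Fs ρ (Icc (-4) 4) G' z y ^ q :=
        (lintegral_dec T2 ((measurable_Fs _ measurableSet_Icc _ _).pow_const _)).symm
    _ ≤ _ := HD_scaled hHD hρ (by linarith) ι G' z hG'u hG'sep

end Pool.Agent.Helper37.Kp
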