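import Pool.Agent.Helper37.Kp.Slice

set_option autoImplicit false
set_option linter.unusedSectionVars false

/-!
The estimate in the unit shell.
-/

open MeasureTheory Set Filter Topology ENNReal NNReal Metric

namespace Pool.Agent.Helper37.Kp

open Pool.Agent.H742R2.Kk
open Pool.Agent.W767.Kc
open Pool.Agent.K3h46.TMC

theorem exists_least {P : ℕ → Prop} (h : ∃ j, P j) : ∃ j0, P j0 ∧ ∀ j, P j → j0 ≤ j := by
  classical
  exact ⟨Nat.find h, Nat.find_spec h, fun j hj => Nat.find_min' h hj⟩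

theorem sum_small_step {x : ℝ} (j0 j : ℕ) (h1 : (2:ℝ)⁻¹ ^ j0 ≤ x) :
    (if (2:ℝ)⁻¹ ^ (j + j0) ≤ x then ENNReal.ofReal ((2:ℝ)⁻¹ ^ (j + j0)) else 0)
      ≤ (2:ℝ≥0∞)⁻¹ ^ j * ENNReal.ofReal x := by
  have h2 : ENNReal.ofReal ((2:ℝ)⁻¹ ^ (j + j0)) ≤ (2:ℝ≥0∞)⁻¹ ^ j * ENNReal.ofReal x := by
    rw [pow_add, ENNReal.ofReal_mul (by positivity), ENNReal.ofReal_pow (by positivity),
      ENNReal.ofReal_inv_of_pos (by norm_num)]
    have : ENNReal.ofReal 2 = 2 := by simp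
    rw [this]
    gcongr
  split_ifs with h
  · exact h2
  · exact zero_le

theorem sum_small {x : ℝ} (hx : 0 < x) :
    ∑' j : ℕ, (if (2:ℝ)⁻¹ ^ j ≤ x then ENNReal.ofReal ((2:ℝ)⁻¹ ^ j) else 0)
      ≤ ENNReal.ofReal (2 * x) := by
  have hex : ∃ j : ℕ, (2:ℝ)⁻¹ ^ j ≤ x := by
    obtain ⟨j, hj⟩ := exists_pow_lt_of_lt_one hx (by norm_num : (2:ℝ)⁻¹ < 1)
    exact ⟨j, hj.le⟩
  obtain ⟨j0, h1, h2⟩ := exists_least hex
  set f : ℕ → ℝ≥0∞ := fun j => (if (2:ℝ)⁻¹ ^ j ≤ x then ENNReal.ofReal ((2:ℝ)⁻¹ ^ j) else 0) with hf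
  have h4 : ∀ j ∈ Finset.range j0, f j = 0 := by
    intro j hj
    simp only [hf]
    rw [if_neg]
    intro h
    have := h2 j h
    have := Finset.mem_range.1 hj
    omega
  have h5 : ∑' j, f j = ∑' j, f (j + j0) := by
    have h8 := Summable.sum_add_tsum_nat_add' (f := f) (k := j0) ENNReal.summable
    rw [Finset.sum_eq_zero h4, zero_add] at h8
    exact h8.symm
  have h6 : ∑' j, f (j + j0) ≤ ∑' j : ℕ, (2:ℝ≥0∞)⁻¹ ^ j * ENNReal.ofReal x :=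
    ENNReal.tsum_le_tsum (fun j => sum_small_step j0 j h1)
  have h7 : ∑' j : ℕ, (2:ℝ≥0∞)⁻¹ ^ j * ENNReal.ofReal x = 2 * ENNReal.ofReal x := by
    rw [ENNReal.tsum_mul_right, ENNReal.tsum_geometric, ENNReal.one_sub_inv_two, inv_inv]
  rw [h5]
  refine h6.trans (le_of_eq ?_)
  rw [h7, ENNReal.ofReal_mul (by norm_num)]
  simp

/-- Scales comparable to `τ`. -/
theorem sum_comp {τ : ℝ} (c : ℝ≥0∞) :
    ∑' j : ℕ, (if (2:ℝ)⁻¹ ^ j ≤ 4 * τ ∧ τ ≤ 9 * (2:ℝ)⁻¹ ^ j then c else 0) ≤ 7 * c := by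
  by_cases hex : ∃ j : ℕ, (2:ℝ)⁻¹ ^ j ≤ 4 * τ ∧ τ ≤ 9 * (2:ℝ)⁻¹ ^ j
  swap
  · push Not at hex
    have : ∀ j : ℕ, (if (2:ℝ)⁻¹ ^ j ≤ 4 * τ ∧ τ ≤ 9 * (2:ℝ)⁻¹ ^ j then c else 0) = 0 := by
      intro j
      rw [if_neg]
      rintro ⟨h1, h2⟩
      exact absurd h2 (not_le.2 (hex j h1))
    rw [tsum_congr this, tsum_zero]
    exact zero_le
  obtain ⟨j0, ⟨h1, -⟩, h2⟩ := exists_least hex
  have h3 : ∀ j, ((2:ℝ)⁻¹ ^ j ≤ 4 * τ ∧ τ ≤ 9 * (2:ℝ)⁻¹ ^ j) → j ∈ Finset.Ico j0 (j0 + 6) := by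
    intro j hj
    have h4 := h2 j hj
    rw [Finset.mem_Ico]
    refine ⟨h4, ?_⟩
    by_contra h5
    push Not at h5
    obtain ⟨i, rfl⟩ := Nat.exists_eq_add_of_le h5
    have h6 : (2:ℝ)⁻¹ ^ (j0 + 6 + i) ≤ (2:ℝ)⁻¹ ^ (j0 + 6) :=
      pow_le_pow_of_le_one (by norm_num) (by norm_num) (Nat.le_add_right _ _)
    have h7 : (2:ℝ)⁻¹ ^ (j0 + 6) = (2:ℝ)⁻¹ ^ j0 / 64 := by
      rw [pow_add]; norm_num; ring
    have h8 : 0 < (2:ℝ)⁻¹ ^ j0 := by positivity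
    have h9 := hj.2
    rw [h7] at h6
    linarith
  rw [tsum_eq_sum (s := Finset.Ico j0 (j0 + 6)) (fun j hj => by
    rw [if_neg]
    intro h
    exact hj (h3 j h))]
  calc ∑ j ∈ Finset.Ico j0 (j0 + 6), (if (2:ℝ)⁻¹ ^ j ≤ 4 * τ ∧ τ ≤ 9 * (2:ℝ)⁻¹ ^ j then c else 0)
      ≤ ∑ j ∈ Finset.Ico j0 (j0 + 6), c := by
        apply Finset.sum_le_sum
        intro j _
        split_ifs
        · exact le_rfl
        · exact zero_le
    _ = 6 * c := by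
        rw [Finset.sum_const, Nat.card_Ico, nsmul_eq_mul]
        congr 1
        simp
    _ ≤ 7 * c := by
        gcongr
        norm_num

/-- The set of the points of the half-spaces that meet a given tube. -/
def Dset {m : ℕ} (ρ θ τ : ℝ) (g' : E (m + 1)) : Set (E (m + 1)) :=
  {y | (θ - ρ ≤ 2 * τ ∧ τ ≤ 8 * θ + ρ) ∧ ‖y‖ ≤ 4 ∧ y ∈ cyl (ρ / θ) (Icc (-4) 4) g' 0}

theorem measurableSet_Dset {m : ℕ} (ρ θ τ : ℝ) (g' : E (m + 1)) :
    MeasurableSet (Dset ρ θ τ g') := by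
  by_cases h : θ - ρ ≤ 2 * τ ∧ τ ≤ 8 * θ + ρ
  · have : Dset ρ θ τ g' = {y | ‖y‖ ≤ 4} ∩ cyl (ρ / θ) (Icc (-4) 4) g' 0 := by
      ext y
      simp only [Dset, mem_ofPred_eq, mem_inter_iff, h, true_and]
    rw [this]
    exact (measurableSet_le measurable_norm measurable_const).inter
      (measurableSet_cyl _ measurableSet_Icc _ _)
  · have : Dset ρ θ τ g' = ∅ := by
      ext y
      simp only [Dset, mem_ofPred_eq, h, false_and, mem_empty_iff_false]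
    rw [this]
    exact MeasurableSet.empty

theorem volume_Dset_le {m : ℕ} (hm : 1 ≤ m) {ρ θ τ : ℝ} (hρ : 0 < ρ) (hθ : 0 < θ)
    {g' : E (m + 1)} (hg : ‖g'‖ = 1) :
    ENNReal.ofReal (θ ^ m) * volume (Dset ρ θ τ g') ≤
      ENNReal.ofReal (8 * 8 ^ m * (2 * ρ) ^ (m - 1)) * (if θ ≤ 2 * ρ then ENNReal.ofReal θ else 0)
      + (if θ ≤ 4 * τ ∧ τ ≤ 9 * θ then ENNReal.ofReal (8 * (2 * ρ) ^ m) else 0) := by
  by_cases h1 : θ ≤ 2 * ρ
  · rw [if_pos h1]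
    refine le_trans ?_ le_self_add
    have h2 : volume (Dset ρ θ τ g') ≤ ENNReal.ofReal (2 * 4 * (2 * 4) ^ m) := by
      refine (measure_mono ?_).trans (volume_cyl_le (ρ := 4) (L := 4) (by norm_num) (by norm_num)
        hg (p := 0))
      rintro y ⟨-, h3, h4, -⟩
      refine ⟨h4, ?_⟩
      refine (norm_perp_le hg _).trans ?_
      rw [sub_zero]
      exact h3
    calc ENNReal.ofReal (θ ^ m) * volume (Dset ρ θ τ g')
        ≤ ENNReal.ofReal (θ ^ m) * ENNReal.ofReal (2 * 4 * (2 * 4) ^ m) := by gcongr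
      _ = ENNReal.ofReal (8 * 8 ^ m * θ ^ m) := by
          rw [← ENNReal.ofReal_mul (by positivity)]
          congr 1
          norm_num
          ring
      _ ≤ ENNReal.ofReal (8 * 8 ^ m * (2 * ρ) ^ (m - 1) * θ) := by
          apply ENNReal.ofReal_le_ofReal
          have e1 : θ ^ m = θ ^ (m - 1) * θ := by
            rw [← pow_succ, Nat.sub_add_cancel hm]
          rw [e1, ← mul_assoc]
          gcongr
      _ = _ := ENNReal.ofReal_mul (by positivity)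
  · rw [if_neg h1, mul_zero, zero_add]
    push Not at h1
    by_cases h2 : θ - ρ ≤ 2 * τ ∧ τ ≤ 8 * θ + ρ
    · rw [if_pos ⟨by linarith [h2.1], by linarith [h2.2]⟩]
      have h3 : volume (Dset ρ θ τ g') ≤ ENNReal.ofReal (2 * 4 * (2 * (ρ / θ)) ^ m) := by
        refine (measure_mono ?_).trans (volume_cyl_le (ρ := ρ / θ) (L := 4) (by positivity)
          (by norm_num) hg (p := 0))
        rintro y ⟨-, -, h4⟩
        exact h4
      calc ENNReal.ofReal (θ ^ m) * volume (Dset ρ θ τ g')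
          ≤ ENNReal.ofReal (θ ^ m) * ENNReal.ofReal (2 * 4 * (2 * (ρ / θ)) ^ m) := by gcongr
        _ = _ := by
            rw [← ENNReal.ofReal_mul (by positivity)]
            congr 1
            have e1 : θ ^ m * (2 * 4 * (2 * (ρ / θ)) ^ m) = 8 * (θ * (2 * (ρ / θ))) ^ m := by
              rw [mul_pow θ]; ring
            rw [e1]
            congr 2
            field_simp
    · have : Dset ρ θ τ g' = ∅ := by
        ext y
        simp only [Dset, mem_ofPred_eq, h2, false_and, mem_empty_iff_false]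
      rw [this]
      simp

theorem sum_volume_Dset {m : ℕ} (hm : 1 ≤ m) {ρ τ : ℝ} (hρ : 0 < ρ)
    {g' : E (m + 1)} (hg : ‖g'‖ = 1) :
    ∑' j : ℕ, ENNReal.ofReal (((2:ℝ)⁻¹ ^ j) ^ m) * volume (Dset ρ ((2:ℝ)⁻¹ ^ j) τ g')
      ≤ ENNReal.ofReal ((16 * 16 ^ m + 56 * 2 ^ m) * ρ ^ m) := by
  calc ∑' j : ℕ, ENNReal.ofReal (((2:ℝ)⁻¹ ^ j) ^ m) * volume (Dset ρ ((2:ℝ)⁻¹ ^ j) τ g')
      ≤ ∑' j : ℕ, (ENNReal.ofReal (8 * 8 ^ m * (2 * ρ) ^ (m - 1)) *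
          (if (2:ℝ)⁻¹ ^ j ≤ 2 * ρ then ENNReal.ofReal ((2:ℝ)⁻¹ ^ j) else 0)
          + (if (2:ℝ)⁻¹ ^ j ≤ 4 * τ ∧ τ ≤ 9 * (2:ℝ)⁻¹ ^ j then ENNReal.ofReal (8 * (2 * ρ) ^ m)
            else 0)) :=
        ENNReal.tsum_le_tsum (fun j => volume_Dset_le hm hρ (by positivity) hg)
    _ = ENNReal.ofReal (8 * 8 ^ m * (2 * ρ) ^ (m - 1)) *
          ∑' j : ℕ, (if (2:ℝ)⁻¹ ^ j ≤ 2 * ρ then ENNReal.ofReal ((2:ℝ)⁻¹ ^ j) else 0)
          + ∑' j : ℕ, (if (2:ℝ)⁻¹ ^ j ≤ 4 * τ ∧ τ ≤ 9 * (2:ℝ)⁻¹ ^ j then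
              ENNReal.ofReal (8 * (2 * ρ) ^ m) else 0) := by
        rw [ENNReal.tsum_add, ENNReal.tsum_mul_left]
    _ ≤ ENNReal.ofReal (8 * 8 ^ m * (2 * ρ) ^ (m - 1)) * ENNReal.ofReal (2 * (2 * ρ))
          + 7 * ENNReal.ofReal (8 * (2 * ρ) ^ m) := by
        gcongr
        · exact sum_small (by positivity)
        · exact sum_comp _
    _ = _ := by
        have e7 : (7:ℝ≥0∞) = ENNReal.ofReal 7 := by simp
        rw [e7, ← ENNReal.ofReal_mul (by positivity), ← ENNReal.ofReal_mul (by positivity),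
          ← ENNReal.ofReal_add (by positivity) (by positivity)]
        congr 1
        have e1 : (2 * ρ) ^ m = (2 * ρ) ^ (m - 1) * (2 * ρ) := by
          rw [← pow_succ, Nat.sub_add_cancel hm]
        have e2 : 8 * 8 ^ m * (2 * ρ) ^ (m - 1) * (2 * (2 * ρ)) = 16 * 8 ^ m * (2 * ρ) ^ m := by
          rw [e1]; ring
        rw [e2, mul_pow]
        have e3 : (16:ℝ) ^ m = 8 ^ m * 2 ^ m := by rw [← mul_pow]; norm_num
        rw [e3]
        ring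

end Pool.Agent.Helper37.Kp
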