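import Pool.Agent.Helper37.Kp.Unit

set_option autoImplicit false
set_option linter.unusedSectionVars false

/-!
The estimate in the unit shell, continued.
-/

open MeasureTheory Set Filter Topology ENNReal NNReal Metric

namespace Pool.Agent.Helper37.Kp

open Pool.Agent.H742R2.Kk
open Pool.Agent.W767.Kc
open Pool.Agent.K3h46.TMC

/-- Integrals over dilated lines. -/
theorem lintegral_dil {Ψ : ℝ → ℝ≥0∞} (hΨ : Measurable Ψ) {c : ℝ} (hc : 1 ≤ c) :
    ∫⁻ r : ℝ, Ψ (r * c) ≤ ∫⁻ s : ℝ, Ψ s := by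
  have hc0 : 0 < c := by linarith
  have h1 : ∫⁻ r : ℝ, Ψ (r * c) = ∫⁻ s, Ψ s ∂(Measure.map (fun r : ℝ => r * c) volume) := by
    rw [lintegral_map hΨ (measurable_mul_const c)]
  rw [h1, Real.map_volume_mul_right hc0.ne', lintegral_smul_measure, smul_eq_mul]
  have h2 : ENNReal.ofReal |c⁻¹| ≤ 1 := by
    rw [← ENNReal.ofReal_one]
    apply ENNReal.ofReal_le_ofReal
    rw [abs_of_pos (by positivity)]
    exact inv_le_one_of_one_le₀ hc
  calc ENNReal.ofReal |c⁻¹| * ∫⁻ s, Ψ s ≤ 1 * ∫⁻ s, Ψ s := by gcongr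
    _ = _ := one_mul _

theorem card_rpow {b : ℝ} (hb : 1 ≤ b) {a N : ℕ} (h : a ≤ N) :
    (a : ℝ) ^ b ≤ (N : ℝ) ^ (b - 1) * a := by
  rcases Nat.eq_zero_or_pos a with h0 | h0
  · rw [h0]
    have : ((0:ℕ) : ℝ) ^ b = 0 := by
      rw [Nat.cast_zero, Real.zero_rpow (by linarith)]
    rw [this]
    positivity
  · have h4 : (0:ℝ) < a := Nat.cast_pos.2 h0
    have e1 : (a : ℝ) ^ b = (a : ℝ) ^ (b - 1) * a := by
      have h5 := Real.rpow_add h4 (b - 1) 1
      rw [Real.rpow_one, sub_add_cancel] at h5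
      exact h5
    rw [e1]
    have h5 : (a : ℝ) ≤ N := Nat.cast_le.2 h
    gcongr

/-- The bound on a ray. -/
theorem ray_le {k m d : ℕ} (T : WithLp 2 (E k × E (m + 1)) ≃ₗᵢ[ℝ] E (d + 1)) {q b CH : ℝ}
    (hq : 0 < q) (hb : 1 ≤ b) (hCH : 0 ≤ CH) (hHD : HD k q b CH) {ρ : ℝ} (hρ : 0 < ρ)
    (hρ1 : ρ ≤ 2 / 5) (ι : Type) [Fintype ι] [Nonempty ι] (f : ι → E k) (g g' : ι → E (m + 1))
    (hunit : ∀ i, ‖T (WithLp.toLp 2 (f i, g i))‖ = 1)
    (hsep : ∀ i j, i ≠ j →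
      5 * ρ ≤ ‖T (WithLp.toLp 2 (f i, g i)) - T (WithLp.toLp 2 (f j, g j))‖)
    (hg' : ∀ i, ‖g' i‖ = 1) (hgg' : ∀ i, g i = ‖g i‖ • g' i) (v : ι → E k)
    {θ : ℝ} (hθ : 0 < θ) {y : E (m + 1)} (hy1 : 1 ≤ ‖y‖) (hy4 : ‖y‖ ≤ 4) :
    ∫⁻ r in Icc θ (2 * θ), ∫⁻ x : E k, Fs ρ (shell 1) (fun i => T (WithLp.toLp 2 (f i, g i)))
        (fun i => T (WithLp.toLp 2 (v i, 0))) (T (WithLp.toLp 2 (x, r • y))) ^ q
      ≤ ENNReal.ofReal (8 ^ (k + 1) * (CH * ((ρ / 8) ^ k * (Fintype.card ι : ℝ) ^ (b - 1)))) *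
        ∑ i, (Dset ρ θ ‖g i‖ (g' i)).indicator (fun _ => (1:ℝ≥0∞)) y := by
  classical
  have hy0 : 0 < ‖y‖ := by linarith
  set u : E (m + 1) := ‖y‖⁻¹ • y with hu
  have hu1 : ‖u‖ = 1 := by
    rw [hu, norm_smul, norm_inv, norm_norm, inv_mul_cancel₀ hy0.ne']
  have hyu : y = ‖y‖ • u := by
    rw [hu, smul_smul, mul_inv_cancel₀ hy0.ne', one_smul]
  set I : Finset ι := Finset.univ.filter (fun i => y ∈ Dset ρ θ ‖g i‖ (g' i) ∧
    ‖g i - (inner ℝ (g i) u : ℝ) • u‖ ≤ ρ) with hI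
  -- only the members of `I` matter
  have hmem : ∀ i, ∀ r ∈ Icc θ (2 * θ), ∀ x : E k, T (WithLp.toLp 2 (x, r • y)) ∈
      cyl ρ (shell 1) (T (WithLp.toLp 2 (f i, g i))) (T (WithLp.toLp 2 (v i, 0))) → i ∈ I := by
    rintro i r hr x ⟨h1, h2⟩
    set t : ℝ := inner ℝ (T (WithLp.toLp 2 (x, r • y)) - T (WithLp.toLp 2 (v i, 0)))
      (T (WithLp.toLp 2 (f i, g i))) with ht
    have hr0 : 0 < r := hθ.trans_le hr.1
    have h3 : ‖r • y - t • g i‖ ≤ ρ := by
      refine le_trans ?_ h2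
      rw [← map_smul, ← map_sub, ← map_sub, LinearIsometryEquiv.norm_map, comb, sub_zero]
      exact snd_le _ _
    have ht1 : 1 ≤ |t| := h1.1
    have ht2 : |t| ≤ 2 := by
      have := h1.2
      linarith
    have hry : ‖r • y‖ = r * ‖y‖ := by rw [norm_smul, Real.norm_of_nonneg hr0.le]
    have htg : ‖t • g i‖ = |t| * ‖g i‖ := by rw [norm_smul, Real.norm_eq_abs]
    have h4 : r * ‖y‖ ≤ |t| * ‖g i‖ + ρ := by
      rw [← hry, ← htg]
      have := norm_sub_norm_le (r • y) (t • g i)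
      linarith
    have h5 : |t| * ‖g i‖ ≤ r * ‖y‖ + ρ := by
      rw [← hry, ← htg]
      have := norm_sub_norm_le (t • g i) (r • y)
      rw [norm_sub_rev] at this
      linarith
    have hg0 : 0 ≤ ‖g i‖ := norm_nonneg _
    rw [hI, Finset.mem_filter]
    refine ⟨Finset.mem_univ _, ⟨⟨?_, ?_⟩, hy4, ?_, ?_⟩, ?_⟩
    · have h6 : θ ≤ r * ‖y‖ := by nlinarith [hr.1]
      have h7 : |t| * ‖g i‖ ≤ 2 * ‖g i‖ := by gcongr
      linarith
    · have h6 : r * ‖y‖ ≤ 8 * θ := by nlinarith [hr.2]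
      have h7 : 1 * ‖g i‖ ≤ |t| * ‖g i‖ := by gcongr
      linarith
    · rw [sub_zero, mem_Icc, ← abs_le]
      refine (abs_real_inner_le_norm _ _).trans ?_
      rw [hg', mul_one]
      exact hy4
    · rw [sub_zero]
      refine (perp_le (hg' i) y (t / r * ‖g i‖)).trans ?_
      rw [← smul_smul, ← hgg']
      have e1 : y - (t / r) • g i = r⁻¹ • (r • y - t • g i) := by
        rw [smul_sub, smul_smul, smul_smul, inv_mul_cancel₀ hr0.ne', one_smul, div_eq_inv_mul]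
      rw [e1, norm_smul, norm_inv, Real.norm_of_nonneg hr0.le, inv_mul_eq_div]
      gcongr
      exact hr.1
    · have ht0 : t ≠ 0 := by
        intro h
        rw [h, abs_zero] at ht1
        linarith
      refine (perp_le hu1 (g i) (r * ‖y‖ / t)).trans ?_
      have e0 : (r * ‖y‖ / t) • u = (r / t) • y := by
        rw [hu, smul_smul]
        congr 1
        field_simp
      have e2 : -t⁻¹ * t = -1 := by field_simp
      have e3 : -t⁻¹ * r = -(r / t) := by ring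
      have e1 : g i - (r * ‖y‖ / t) • u = (-t⁻¹) • (r • y - t • g i) := by
        rw [e0, smul_sub, smul_smul, smul_smul, e2, e3, neg_smul, neg_smul, one_smul]
        abel
      rw [e1, norm_smul, norm_neg, norm_inv, Real.norm_eq_abs]
      calc |t|⁻¹ * ‖r • y - t • g i‖ ≤ 1 * ρ := by
            gcongr
            exact inv_le_one_of_one_le₀ ht1
        _ = ρ := one_mul _
  set FI : E (d + 1) → ℝ≥0∞ := Fs (ι := I) ρ (shell 1) (fun i => T (WithLp.toLp 2 (f i, g i)))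
        (fun i => T (WithLp.toLp 2 (v i, 0))) with hFI
  have hFIm : Measurable FI := measurable_Fs _ (measurableSet_shell _) _ _
  have hFeq : ∀ r ∈ Icc θ (2 * θ), ∀ x : E k,
      Fs ρ (shell 1) (fun i => T (WithLp.toLp 2 (f i, g i)))
        (fun i => T (WithLp.toLp 2 (v i, 0))) (T (WithLp.toLp 2 (x, r • y)))
      = FI (T (WithLp.toLp 2 (x, (r * ‖y‖) • u))) := by
    intro r hr x
    have e1 : r • y = (r * ‖y‖) • u := by
      nth_rewrite 1 [hyu]
      rw [smul_smul]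
    rw [← e1, hFI]
    unfold Fs
    rw [Finset.sum_coe_sort I (fun i => (cyl ρ (shell 1) (T (WithLp.toLp 2 (f i, g i)))
      (T (WithLp.toLp 2 (v i, 0)))).indicator (fun _ => (1:ℝ≥0∞)) (T (WithLp.toLp 2 (x, r • y))))]
    symm
    apply Finset.sum_subset (Finset.subset_univ _)
    intro i _ hi
    rw [indicator_of_notMem]
    intro h
    exact hi (hmem i r hr x h)
  set Ψ : ℝ → ℝ≥0∞ := fun s => ∫⁻ x : E k, FI (T (WithLp.toLp 2 (x, s • u))) ^ q with hΨ
  have hΨm : Measurable Ψ := by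
    have h1 : Measurable (fun p : ℝ × E k => FI (T (WithLp.toLp 2 (p.2, p.1 • u))) ^ q) := by
      refine (hFIm.comp ?_).pow_const q
      refine T.continuous.measurable.comp ?_
      refine (WithLp.measurable_toLp 2 _).comp ?_
      exact measurable_snd.prodMk (measurable_fst.smul measurable_const)
    exact h1.lintegral_prod_right'
  have h1 : ∫⁻ r in Icc θ (2 * θ), ∫⁻ x : E k,
      Fs ρ (shell 1) (fun i => T (WithLp.toLp 2 (f i, g i)))
        (fun i => T (WithLp.toLp 2 (v i, 0))) (T (WithLp.toLp 2 (x, r • y))) ^ q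
      ≤ ∫⁻ s, Ψ s := by
    calc ∫⁻ r in Icc θ (2 * θ), ∫⁻ x : E k,
          Fs ρ (shell 1) (fun i => T (WithLp.toLp 2 (f i, g i)))
          (fun i => T (WithLp.toLp 2 (v i, 0))) (T (WithLp.toLp 2 (x, r • y))) ^ q
        = ∫⁻ r in Icc θ (2 * θ), Ψ (r * ‖y‖) := by
          apply setLIntegral_congr_fun measurableSet_Icc
          intro r hr
          simp only [hΨ]
          apply lintegral_congr
          intro x
          rw [hFeq r hr x]
      _ ≤ ∫⁻ r, Ψ (r * ‖y‖) := setLIntegral_le_lintegral _ _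
      _ ≤ _ := lintegral_dil hΨm hy1
  have h2 := slice_est T hq hHD hρ hρ1 hu1 I (fun i => f i) (fun i => g i) (fun i => hunit i)
    (fun i j hij => hsep i j (fun h => hij (Subtype.ext h)))
    (fun i => (Finset.mem_filter.1 i.2).2.2) (fun i => v i)
  refine h1.trans (h2.trans ?_)
  rw [Fintype.card_coe]
  have h3 : (I.card : ℝ) ^ b ≤ (Fintype.card ι : ℝ) ^ (b - 1) * I.card :=
    card_rpow hb (Finset.card_le_univ I)
  have h6 : (I.card : ℝ≥0∞) ≤ ∑ i, (Dset ρ θ ‖g i‖ (g' i)).indicator (fun _ => (1:ℝ≥0∞)) y := by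
    calc (I.card : ℝ≥0∞) = ∑ i ∈ I, (1:ℝ≥0∞) := by simp
      _ = ∑ i ∈ I, (Dset ρ θ ‖g i‖ (g' i)).indicator (fun _ => (1:ℝ≥0∞)) y := by
          apply Finset.sum_congr rfl
          intro i hi
          rw [indicator_of_mem (Finset.mem_filter.1 hi).2.1]
      _ ≤ _ := Finset.sum_le_sum_of_subset (Finset.subset_univ _)
  calc ENNReal.ofReal (8 ^ (k + 1) * (CH * ((ρ / 8) ^ k * (I.card : ℝ) ^ b)))
      ≤ ENNReal.ofReal (8 ^ (k + 1) * (CH * ((ρ / 8) ^ k * ((Fintype.card ι : ℝ) ^ (b - 1)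
          * I.card)))) := by
        apply ENNReal.ofReal_le_ofReal
        apply mul_le_mul_of_nonneg_left _ (by positivity)
        apply mul_le_mul_of_nonneg_left _ hCH
        exact mul_le_mul_of_nonneg_left h3 (by positivity)
    _ = ENNReal.ofReal (8 ^ (k + 1) * (CH * ((ρ / 8) ^ k * (Fintype.card ι : ℝ) ^ (b - 1))))
          * I.card := by
        have e1 : (I.card : ℝ≥0∞) = ENNReal.ofReal (I.card : ℝ) :=
          (ENNReal.ofReal_natCast _).symm
        rw [e1, ← ENNReal.ofReal_mul (by positivity)]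
        congr 1
        ring
    _ ≤ _ := by gcongr

/-- The estimate in the unit shell. -/
theorem unit_shell {k m : ℕ} (hm : 1 ≤ m) {q b CH : ℝ} (hq : 0 < q) (hb : 1 ≤ b) (hCH : 0 < CH)
    (hHD : HD k q b CH) : ∃ C : ℝ, 0 < C ∧
    ∀ (T : WithLp 2 (E k × E (m + 1)) ≃ₗᵢ[ℝ] E (k + m + 1)) (ρ : ℝ), 0 < ρ → ρ ≤ 2 / 5 →
    ∀ (ι : Type) [Fintype ι] [Nonempty ι] (e : ι → E (k + m + 1)), (∀ i, ‖e i‖ = 1) →
    (∀ i j, i ≠ j → 5 * ρ ≤ ‖e i - e j‖) → ∀ v : ι → E k,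
    ∫⁻ y, Fs ρ (shell 1) e (fun i => T (WithLp.toLp 2 (v i, 0))) y ^ q
      ≤ ENNReal.ofReal (C * (ρ ^ (k + m) * (Fintype.card ι : ℝ) ^ b)) := by
  refine ⟨2 ^ (m + 1) * (8 * CH) * (16 * 16 ^ m + 56 * 2 ^ m), by positivity, ?_⟩
  intro T ρ hρ hρ1 ι _ _ e he hsep v
  classical
  set f : ι → E k := fun i => (T.symm (e i)).fst with hf
  set g : ι → E (m + 1) := fun i => (T.symm (e i)).snd with hg
  have heT : ∀ i, e i = T (WithLp.toLp 2 (f i, g i)) := by
    intro i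
    have : (WithLp.toLp 2 (f i, g i) : WithLp 2 (E k × E (m + 1))) = T.symm (e i) := rfl
    rw [this, LinearIsometryEquiv.apply_symm_apply]
  have heT' : e = fun i => T (WithLp.toLp 2 (f i, g i)) := funext heT
  have hunit : ∀ i, ‖T (WithLp.toLp 2 (f i, g i))‖ = 1 := fun i => by rw [← heT]; exact he i
  have hg1 : ∀ i, ‖g i‖ ≤ 1 := by
    intro i
    rw [← hunit i, LinearIsometryEquiv.norm_map]
    exact snd_le _ _
  have hex : ∀ i, ∃ g' : E (m + 1), ‖g'‖ = 1 ∧ g i = ‖g i‖ • g' := by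
    intro i
    by_cases h : g i = 0
    · obtain ⟨w, hw⟩ := exists_norm_eq (E (m + 1)) (zero_le_one (α := ℝ))
      exact ⟨w, hw, by rw [h, norm_zero, zero_smul]⟩
    · refine ⟨‖g i‖⁻¹ • g i, ?_, ?_⟩
      · rw [norm_smul, norm_inv, norm_norm, inv_mul_cancel₀ (norm_ne_zero_iff.2 h)]
      · rw [smul_smul, mul_inv_cancel₀ (norm_ne_zero_iff.2 h), one_smul]
  choose g' hg' hgg' using hex
  set p : ι → E (k + m + 1) := fun i => T (WithLp.toLp 2 (v i, 0)) with hp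
  set F : E (k + m + 1) → ℝ≥0∞ := Fs ρ (shell 1) e p with hF
  have hFm : Measurable F := measurable_Fs _ (measurableSet_shell _) _ _
  set H : E (m + 1) → ℝ≥0∞ := fun w => ∫⁻ x : E k, F (T (WithLp.toLp 2 (x, w))) ^ q with hH
  have hHm : Measurable H := by
    have h1 : Measurable (fun p : E (m + 1) × E k => F (T (WithLp.toLp 2 (p.2, p.1))) ^ q) := by
      refine (hFm.comp ?_).pow_const q
      refine T.continuous.measurable.comp ?_
      refine (WithLp.measurable_toLp 2 _).comp ?_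
      exact measurable_snd.prodMk measurable_fst
    exact h1.lintegral_prod_right'
  have hH0 : ∀ w, 4 < ‖w‖ → H w = 0 := by
    intro w hw
    have h1 : ∀ x : E k, F (T (WithLp.toLp 2 (x, w))) ^ q = 0 := by
      intro x
      have h2 : F (T (WithLp.toLp 2 (x, w))) = 0 := by
        rw [hF]
        unfold Fs
        apply Finset.sum_eq_zero
        intro i _
        rw [indicator_of_notMem]
        rintro ⟨h1, h2⟩
        set t : ℝ := inner ℝ (T (WithLp.toLp 2 (x, w)) - p i) (e i) with ht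
        have h3 : ‖w - t • g i‖ ≤ ρ := by
          refine le_trans ?_ h2
          rw [hp, heT i, ← map_smul, ← map_sub, ← map_sub, LinearIsometryEquiv.norm_map, comb,
            sub_zero]
          exact snd_le _ _
        have ht2 : |t| ≤ 2 := by
          have := h1.2
          linarith
        have htg : ‖t • g i‖ ≤ 2 * 1 := by
          rw [norm_smul, Real.norm_eq_abs]
          exact mul_le_mul ht2 (hg1 i) (norm_nonneg _) (by norm_num)
        have := norm_sub_norm_le w (t • g i)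
        linarith
      rw [h2, ENNReal.zero_rpow_of_pos hq]
    rw [hH]
    simp only [h1, lintegral_zero]
  have hcard : (0:ℝ) < Fintype.card ι := Nat.cast_pos.2 Fintype.card_pos
  set N : ℝ := (Fintype.card ι : ℝ) with hN
  set c1 : ℝ := 8 ^ (k + 1) * (CH * ((ρ / 8) ^ k * N ^ (b - 1))) with hc1
  have hc10 : 0 < c1 := by positivity
  -- one annulus
  have hann : ∀ j : ℕ, ∫⁻ w in {w : E (m + 1) | 2 * (2:ℝ)⁻¹ ^ j ≤ ‖w‖ ∧ ‖w‖ ≤ 4 * (2:ℝ)⁻¹ ^ j},
      H w ≤ ENNReal.ofReal (2 ^ (m + 1) * c1) *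
        ∑ i, ENNReal.ofReal (((2:ℝ)⁻¹ ^ j) ^ m) * volume (Dset ρ ((2:ℝ)⁻¹ ^ j) ‖g i‖ (g' i)) := by
    intro j
    set θ : ℝ := (2:ℝ)⁻¹ ^ j with hθ
    have hθ0 : 0 < θ := by positivity
    have hAm : MeasurableSet {y : E (m + 1) | 1 ≤ ‖y‖ ∧ ‖y‖ ≤ 4} :=
      (measurableSet_le measurable_const measurable_norm).inter
        (measurableSet_le measurable_norm measurable_const)
    refine (radial_le hθ0 hHm).trans ?_
    have h1 : ∫⁻ y in {y : E (m + 1) | 1 ≤ ‖y‖ ∧ ‖y‖ ≤ 4}, ∫⁻ r in Icc θ (2 * θ), H (r • y)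
        ≤ ENNReal.ofReal c1 * ∑ i, volume (Dset ρ θ ‖g i‖ (g' i)) := by
      calc ∫⁻ y in {y : E (m + 1) | 1 ≤ ‖y‖ ∧ ‖y‖ ≤ 4}, ∫⁻ r in Icc θ (2 * θ), H (r • y)
          ≤ ∫⁻ y in {y : E (m + 1) | 1 ≤ ‖y‖ ∧ ‖y‖ ≤ 4}, ENNReal.ofReal c1 *
            ∑ i, (Dset ρ θ ‖g i‖ (g' i)).indicator (fun _ => (1:ℝ≥0∞)) y := by
            apply setLIntegral_mono' hAm
            intro y hy
            have := ray_le T hq hb hCH.le hHD hρ hρ1 ι f g g' hunit (fun i j hij => by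
              rw [← heT, ← heT]; exact hsep i j hij) hg' hgg' v hθ0 hy.1 hy.2
            rw [← heT'] at this
            exact this
        _ ≤ ∫⁻ y, ENNReal.ofReal c1 *
            ∑ i, (Dset ρ θ ‖g i‖ (g' i)).indicator (fun _ => (1:ℝ≥0∞)) y :=
            setLIntegral_le_lintegral _ _
        _ = _ := by
            rw [lintegral_const_mul' _ _ ENNReal.ofReal_ne_top, lintegral_finsetSum _
              (fun i _ => measurable_const.indicator (measurableSet_Dset _ _ _ _))]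
            congr 1
            apply Finset.sum_congr rfl
            intro i _
            rw [lintegral_indicator (measurableSet_Dset _ _ _ _), setLIntegral_one]
    calc ENNReal.ofReal (2 ^ (m + 1) * θ ^ m) *
          ∫⁻ y in {y : E (m + 1) | 1 ≤ ‖y‖ ∧ ‖y‖ ≤ 4}, ∫⁻ r in Icc θ (2 * θ), H (r • y)
        ≤ ENNReal.ofReal (2 ^ (m + 1) * θ ^ m) *
          (ENNReal.ofReal c1 * ∑ i, volume (Dset ρ θ ‖g i‖ (g' i))) := by gcongr
      _ = _ := by
          rw [ENNReal.ofReal_mul (p := 2 ^ (m + 1)) (q := θ ^ m) (by positivity),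
            ENNReal.ofReal_mul (p := 2 ^ (m + 1)) (q := c1) (by positivity), ← Finset.mul_sum]
          ring
  -- summation
  have hsum : ∫⁻ w, H w ≤ ∑' j : ℕ,
      ∫⁻ w in {w : E (m + 1) | 2 * (2:ℝ)⁻¹ ^ j ≤ ‖w‖ ∧ ‖w‖ ≤ 4 * (2:ℝ)⁻¹ ^ j}, H w := by
    have hBm : ∀ j : ℕ, MeasurableSet
        {w : E (m + 1) | 2 * (2:ℝ)⁻¹ ^ j ≤ ‖w‖ ∧ ‖w‖ ≤ 4 * (2:ℝ)⁻¹ ^ j} := fun j =>
      (measurableSet_le measurable_const measurable_norm).inter
        (measurableSet_le measurable_norm measurable_const)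
    simp_rw [← lintegral_indicator (hBm _)]
    rw [← lintegral_tsum (fun j => (hHm.indicator (hBm j)).aemeasurable)]
    have hne : ∀ᵐ w : E (m + 1), w ≠ 0 := by
      rw [ae_iff]
      simp
    apply lintegral_mono_ae
    filter_upwards [hne] with w hw
    rcases lt_or_ge 4 ‖w‖ with h4 | h4
    · rw [hH0 w h4]; exact zero_le
    obtain ⟨j, h5, h6⟩ := exists_nat_pow_near_of_lt_one (x := ‖w‖ / 4) (y := (2:ℝ)⁻¹)
      (by have := norm_pos_iff.2 hw; positivity) (by linarith) (by norm_num) (by norm_num)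
    have hmem : w ∈ {w : E (m + 1) | 2 * (2:ℝ)⁻¹ ^ j ≤ ‖w‖ ∧ ‖w‖ ≤ 4 * (2:ℝ)⁻¹ ^ j} := by
      rw [pow_succ] at h5
      constructor <;> linarith
    refine le_trans (le_of_eq ?_) (ENNReal.le_tsum j)
    rw [indicator_of_mem hmem]
  have hdec : ∫⁻ y, F y ^ q = ∫⁻ w, H w := lintegral_dec T (hFm.pow_const q)
  rw [hdec]
  calc ∫⁻ w, H w ≤ _ := hsum
    _ ≤ ∑' j : ℕ, ENNReal.ofReal (2 ^ (m + 1) * c1) *
        ∑ i, ENNReal.ofReal (((2:ℝ)⁻¹ ^ j) ^ m) * volume (Dset ρ ((2:ℝ)⁻¹ ^ j) ‖g i‖ (g' i)) :=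
        ENNReal.tsum_le_tsum hann
    _ = ENNReal.ofReal (2 ^ (m + 1) * c1) * ∑ i, ∑' j : ℕ,
        ENNReal.ofReal (((2:ℝ)⁻¹ ^ j) ^ m) * volume (Dset ρ ((2:ℝ)⁻¹ ^ j) ‖g i‖ (g' i)) := by
        rw [ENNReal.tsum_mul_left, Summable.tsum_finsetSum (fun _ _ => ENNReal.summable)]
    _ ≤ ENNReal.ofReal (2 ^ (m + 1) * c1) * ∑ i : ι,
        ENNReal.ofReal ((16 * 16 ^ m + 56 * 2 ^ m) * ρ ^ m) := by
        gcongr with i
        exact sum_volume_Dset hm hρ (hg' i)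
    _ = _ := by
        rw [Finset.sum_const, Finset.card_univ, nsmul_eq_mul, ← ENNReal.ofReal_natCast,
          ← ENNReal.ofReal_mul (by positivity), ← ENNReal.ofReal_mul (by positivity)]
        congr 1
        have e1 : N ^ b = N ^ (b - 1) * N := by
          have h5 := Real.rpow_add hcard (b - 1) 1
          rw [Real.rpow_one, sub_add_cancel] at h5
          exact h5
        have e2 : (8:ℝ) ^ (k + 1) * (CH * ((ρ / 8) ^ k * N ^ (b - 1)))
            = 8 * CH * (ρ ^ k * N ^ (b - 1)) := by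
          rw [div_pow, pow_succ]
          field_simp
        rw [← hN, hc1, e2, e1, pow_add]
        ring

end Pool.Agent.Helper37.Kp
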